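import Mathlib

/-!
# Definitions: representation functions of perturbed sets
-/

set_option autoImplicit false

namespace Pool.Agent.E8helper84.SM

open Filter MeasureTheory ProbabilityTheory

universe u

/-- the number of ordered pairs of elements of `A` with sum `n` -/
noncomputable def rep (A : Set ℕ) (n : ℕ) : ℕ :=
  {p : ℕ × ℕ | p.1 + p.2 = n ∧ p.1 ∈ A ∧ p.2 ∈ A}.ncard

/-- the number of elements of `A` in `[1, N]` -/
noncomputable def count (A : Set ℕ) (N : ℕ) : ℝ := ((A ∩ Set.Icc 1 N).ncard : ℝ)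

/-- the perturbed set: every `a ∈ A` is moved to `a + ε a` -/
def shift (ε : ℕ → ℕ) (A : Set ℕ) : Set ℕ := (fun a => a + ε a) '' A

/-- Random perturbation with range `h`: the `ε a` are independent, and for every `δ > 0` and all
large `a` each of the values `i < h a` is taken with probability at least `a ^ (-δ)`. -/
def Pert {Ω : Type u} [MeasurableSpace Ω] (μ : Measure Ω) (ε : ℕ → Ω → ℕ) (h : ℕ → ℕ) : Prop :=
  (∀ a, Measurable (ε a)) ∧ iIndepFun ε μ ∧
    ∀ δ : ℝ, 0 < δ → ∀ᶠ a : ℕ in atTop, ∀ i < h a, (a : ℝ) ^ (-δ) ≤ μ.real {ω | ε a ω = i}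

/-- `h` varies slowly: `h (N ^ 2) ≤ K h N` for all large `N` -/
def SlowVar (h : ℕ → ℕ) : Prop := ∃ K : ℕ, ∀ᶠ N : ℕ in atTop, h (N ^ 2) ≤ K * h N

/-- the displacement of `f` is at most `H`: `|f a - a| ≤ H a` for all `a` -/
def Disp (H : ℕ → ℕ) (f : ℕ → ℕ) : Prop := ∀ a, f a ≤ a + H a ∧ a ≤ f a + H a

/-- every interval `[x, x + H x]` contains at most `C` elements of `S` -/
def Sparse (C : ℕ) (H : ℕ → ℕ) (S : Set ℕ) : Prop := ∀ x, (S ∩ Set.Icc x (x + H x)).ncard ≤ C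

/-- `S` has upper Banach density zero. -/
def BanachZero (S : Set ℕ) : Prop :=
  ∀ δ : ℝ, 0 < δ → ∀ᶠ L : ℕ in atTop, ∀ x : ℕ, ((S ∩ Set.Ico x (x + L)).ncard : ℝ) ≤ δ * L

/-- `g` forces unbounded representations inside `S`: every `B ⊆ S` with `g N * count B N ≥ c √N` for
some `c > 0` and arbitrarily large `N` has an unbounded representation function. -/
def Forces (g : ℕ → ℝ) (S : Set ℕ) : Prop :=
  ∀ B : Set ℕ, B ⊆ S → (∃ c : ℝ, 0 < c ∧ ∃ᶠ N : ℕ in atTop, c * Real.sqrt N ≤ g N * count B N) →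
    ∀ k, ∃ n, k ≤ rep B n

end Pool.Agent.E8helper84.SM
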