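import Pool.Agent.E8helper84.SM.Defs

/-!
# Close sums of disjoint pairs

Deterministic part: a set `B` of `m` integers up to `N` with `m² ℓ ≥ 48 k² N` contains `k` pairwise
disjoint pairs whose sums lie in an interval of length `2 ℓ`.
-/

set_option autoImplicit false

namespace Pool.Agent.E8helper84.SM

open Finset

theorem rep_finite (A : Set ℕ) (n : ℕ) :
    {p : ℕ × ℕ | p.1 + p.2 = n ∧ p.1 ∈ A ∧ p.2 ∈ A}.Finite :=
  ((range (n + 1)) ×ˢ (range (n + 1))).finite_toSet.subset (by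
    rintro p ⟨h, -⟩
    simp only [coe_product, coe_range, Set.mem_prod, Set.mem_Iio]
    omega)

theorem rep_mono {A B : Set ℕ} (h : A ⊆ B) (n : ℕ) : rep A n ≤ rep B n :=
  Set.ncard_le_ncard (fun _ hp => ⟨hp.1, h hp.2.1, h hp.2.2⟩) (rep_finite B n)

theorem le_rep {A : Set ℕ} {n : ℕ} (S : Finset ℕ) (h : ∀ x ∈ S, x ≤ n ∧ x ∈ A ∧ n - x ∈ A) :
    S.card ≤ rep A n := by
  have h1 : ((S.image fun x => (x, n - x) : Finset (ℕ × ℕ)) : Set (ℕ × ℕ)).ncard = S.card := by
    rw [Set.ncard_coe_finset, Finset.card_image_of_injective]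
    intro x y hxy
    exact (Prod.mk.inj hxy).1
  rw [← h1]
  refine Set.ncard_le_ncard ?_ (rep_finite A n)
  intro p hp
  simp only [coe_image, Set.mem_image, mem_coe] at hp
  obtain ⟨x, hx, rfl⟩ := hp
  obtain ⟨h2, h3, h4⟩ := h x hx
  exact ⟨by simp only; omega, h3, h4⟩

/-- Two ordered pairs without a common entry. -/
def Dj (p q : ℕ × ℕ) : Prop := p.1 ≠ q.1 ∧ p.1 ≠ q.2 ∧ p.2 ≠ q.1 ∧ p.2 ≠ q.2

theorem Dj.symm {p q : ℕ × ℕ} (h : Dj p q) : Dj q p :=
  ⟨h.1.symm, h.2.2.1.symm, h.2.1.symm, h.2.2.2.symm⟩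

/-- greedy matching -/
theorem matching {d : ℕ} (hd : 1 ≤ d) : ∀ (k : ℕ) (F : Finset (ℕ × ℕ)),
    (∀ v, (F.filter (fun p => p.1 = v)).card ≤ d) →
    (∀ v, (F.filter (fun p => p.2 = v)).card ≤ d) → 4 * d * k ≤ F.card →
    ∃ P ⊆ F, P.card = k ∧ (P : Set (ℕ × ℕ)).Pairwise Dj := by
  intro k
  induction k with
  | zero =>
    intro F _ _ _
    exact ⟨∅, by simp, by simp, by simp⟩
  | succ k ih =>
    intro F h1 h2 h3
    classical
    have hne : F.Nonempty := by
      rw [← Finset.card_pos]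
      nlinarith
    obtain ⟨p, hp⟩ := hne
    set F' := F.filter (fun q => Dj p q) with hF'
    have hsub : F \ F' ⊆ (F.filter (fun q => q.1 = p.1)) ∪ (F.filter (fun q => q.1 = p.2)) ∪
        ((F.filter (fun q => q.2 = p.1)) ∪ (F.filter (fun q => q.2 = p.2))) := by
      intro q hq
      simp only [hF', mem_sdiff, mem_filter, not_and] at hq
      have h4 := hq.2 hq.1
      simp only [mem_union, mem_filter]
      unfold Dj at h4
      by_cases c1 : p.1 = q.1
      · exact Or.inl (Or.inl ⟨hq.1, c1.symm⟩)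
      by_cases c2 : p.1 = q.2
      · exact Or.inr (Or.inl ⟨hq.1, c2.symm⟩)
      by_cases c3 : p.2 = q.1
      · exact Or.inl (Or.inr ⟨hq.1, c3.symm⟩)
      by_cases c4 : p.2 = q.2
      · exact Or.inr (Or.inr ⟨hq.1, c4.symm⟩)
      exact absurd ⟨c1, c2, c3, c4⟩ h4
    have hcard : (F \ F').card ≤ 4 * d := by
      refine (card_le_card hsub).trans ((card_union_le _ _).trans ?_)
      have e1 := card_union_le (F.filter (fun q => q.1 = p.1)) (F.filter (fun q => q.1 = p.2))
      have e2 := card_union_le (F.filter (fun q => q.2 = p.1)) (F.filter (fun q => q.2 = p.2))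
      have e3 := h1 p.1
      have e4 := h1 p.2
      have e5 := h2 p.1
      have e6 := h2 p.2
      omega
    have hF'c : 4 * d * k ≤ F'.card := by
      have e1 : (F \ F').card + F'.card = F.card :=
        card_sdiff_add_card_eq_card (filter_subset _ _)
      have e2 : 4 * d * (k + 1) = 4 * d * k + 4 * d := by ring
      omega
    obtain ⟨P, hP1, hP2, hP3⟩ := ih F' (fun v => (card_le_card (filter_subset_filter _
      (filter_subset _ _))).trans (h1 v)) (fun v => (card_le_card (filter_subset_filter _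
      (filter_subset _ _))).trans (h2 v)) hF'c
    have hPd : ∀ q ∈ P, Dj p q := fun q hq => (mem_filter.1 (hP1 hq)).2
    have hpP : p ∉ P := fun h => (hPd p h).1 rfl
    refine ⟨insert p P, ?_, ?_, ?_⟩
    · intro q hq
      rcases mem_insert.1 hq with rfl | hq
      · exact hp
      · exact (mem_filter.1 (hP1 hq)).1
    · rw [card_insert_of_notMem hpP, hP2]
    · rw [coe_insert]
      intro q hq r hr hqr
      rcases hq with rfl | hq
      · rcases hr with rfl | hr
        · exact absurd rfl hqr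
        · exact hPd r hr
      · rcases hr with rfl | hr
        · exact (hPd q hq).symm
        · exact hP3 hq hr hqr

/-- `k` pairwise disjoint pairs with close sums. -/
theorem pairs_close {B : Finset ℕ} {N ℓ k : ℕ} (hk : 1 ≤ k) (hB : ∀ b ∈ B, b ≤ N) (hℓ : 1 ≤ ℓ)
    (hℓN : ℓ ≤ N) (h : 48 * k ^ 2 * N ≤ B.card ^ 2 * ℓ) :
    ∃ (P : Finset (ℕ × ℕ)) (s : ℕ), P.card = k ∧
      (∀ p ∈ P, p.1 ∈ B ∧ p.2 ∈ B ∧ p.1 ≠ p.2 ∧ s ≤ p.1 + p.2 ∧ p.1 + p.2 < s + 2 * ℓ) ∧
      (P : Set (ℕ × ℕ)).Pairwise Dj := by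
  classical
  by_cases hcl : ∃ x, 2 * k ≤ (B.filter (fun b => x ≤ b ∧ b < x + ℓ)).card
  · obtain ⟨x, hx⟩ := hcl
    obtain ⟨T, hT1, hT2⟩ := exists_subset_card_eq hx
    obtain ⟨T1, hT11, hT12⟩ := exists_subset_card_eq (show k ≤ T.card by omega)
    have hT3 : (T \ T1).card = k := by
      rw [card_sdiff_of_subset hT11]
      omega
    have hTB : ∀ a ∈ T, a ∈ B ∧ x ≤ a ∧ a < x + ℓ := fun a ha => by
      simpa using hT1 ha
    let e : T1 ≃ (T \ T1 : Finset ℕ) := Finset.equivOfCardEq (hT12.trans hT3.symm)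
    have hne : ∀ a b : T1, (a : ℕ) ≠ (e b : ℕ) := fun a b hab => by
      have h1 := (e b).2
      rw [← hab] at h1
      exact (mem_sdiff.1 h1).2 a.2
    refine ⟨T1.attach.image (fun a : T1 => ((a : ℕ), ((e a : ℕ)))), 2 * x, ?_, ?_, ?_⟩
    · rw [card_image_of_injective, card_attach, hT12]
      intro a b hab
      exact Subtype.ext (Prod.mk.inj hab).1
    · intro p hp
      simp only [mem_image, mem_attach, true_and] at hp
      obtain ⟨a, rfl⟩ := hp
      have h1 := hTB a (hT11 a.2)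
      have h2 := hTB (e a) ((mem_sdiff.1 (e a).2).1)
      refine ⟨h1.1, h2.1, hne a a, ?_, ?_⟩ <;> simp only <;> omega
    · intro p hp q hq hpq
      simp only [coe_image, Set.mem_image] at hp hq
      obtain ⟨a, -, rfl⟩ := hp
      obtain ⟨b, -, rfl⟩ := hq
      have hab : a ≠ b := fun hab => hpq (by rw [hab])
      refine ⟨fun h1 => hab (Subtype.ext h1), hne a b, (hne b a).symm, fun h1 => hab ?_⟩
      exact e.injective (Subtype.ext h1)
  · push Not at hcl
    have hd : 1 ≤ 2 * k - 1 := by omega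
    have hm2 : 2 ≤ B.card := by
      by_contra hcon
      have h1 : B.card ^ 2 ≤ 1 := by
        have : B.card ≤ 1 := by omega
        calc B.card ^ 2 ≤ 1 ^ 2 := Nat.pow_le_pow_left this 2
          _ = 1 := one_pow 2
      have h2 : B.card ^ 2 * ℓ ≤ 1 * ℓ := Nat.mul_le_mul_right _ h1
      have h3 : 1 ≤ k ^ 2 := Nat.one_le_pow _ _ hk
      have h4 : 48 * 1 * N ≤ 48 * k ^ 2 * N := Nat.mul_le_mul_right _ (Nat.mul_le_mul_left _ h3)
      omega
    have hfib : ∃ y ∈ range (2 * N / ℓ + 1), 4 * (2 * k - 1) * k ≤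
        (B.offDiag.filter (fun p => (p.1 + p.2) / ℓ = y)).card := by
      refine exists_le_card_fiber_of_mul_le_card_of_maps_to ?_ ⟨0, by simp⟩ ?_
      · intro p hp
        rw [mem_offDiag] at hp
        rw [mem_range, Nat.lt_succ_iff]
        apply Nat.div_le_div_right
        have h1 := hB _ hp.1
        have h2 := hB _ hp.2.1
        omega
      · rw [card_range, offDiag_card]
        have h1 : (2 * N / ℓ + 1) * ℓ ≤ 3 * N := by
          have : 2 * N / ℓ * ℓ ≤ 2 * N := Nat.div_mul_le_self _ _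
          rw [add_mul, one_mul]
          omega
        have h2 : 4 * (2 * k - 1) * k ≤ 8 * k ^ 2 := by
          have : 4 * (2 * k - 1) ≤ 8 * k := by omega
          calc 4 * (2 * k - 1) * k ≤ 8 * k * k := Nat.mul_le_mul_right _ this
            _ = 8 * k ^ 2 := by ring
        have h3 : 2 * ((2 * N / ℓ + 1) * (8 * k ^ 2)) * ℓ ≤ B.card ^ 2 * ℓ := by
          calc 2 * ((2 * N / ℓ + 1) * (8 * k ^ 2)) * ℓ
              = 16 * k ^ 2 * ((2 * N / ℓ + 1) * ℓ) := by ring
            _ ≤ 16 * k ^ 2 * (3 * N) := Nat.mul_le_mul_left _ h1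
            _ = 48 * k ^ 2 * N := by ring
            _ ≤ _ := h
        have h4 : 2 * ((2 * N / ℓ + 1) * (8 * k ^ 2)) ≤ B.card ^ 2 :=
          Nat.le_of_mul_le_mul_right h3 (by omega)
        have h5 : 2 * B.card ≤ B.card * B.card := Nat.mul_le_mul_right _ hm2
        have h6 : (2 * N / ℓ + 1) * (4 * (2 * k - 1) * k) ≤ (2 * N / ℓ + 1) * (8 * k ^ 2) :=
          Nat.mul_le_mul_left _ h2
        rw [pow_two B.card] at h4
        omega
    obtain ⟨y, -, hy⟩ := hfib
    set F := B.offDiag.filter (fun p => (p.1 + p.2) / ℓ = y) with hF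
    have hFm : ∀ p ∈ F, p.1 ∈ B ∧ p.2 ∈ B ∧ p.1 ≠ p.2 ∧ y * ℓ ≤ p.1 + p.2 ∧
        p.1 + p.2 < y * ℓ + ℓ := by
      intro p hp
      rw [hF, mem_filter, mem_offDiag] at hp
      obtain ⟨⟨h1, h2, h3⟩, h4⟩ := hp
      refine ⟨h1, h2, h3, ?_, ?_⟩
      · rw [← h4]
        exact Nat.div_mul_le_self _ _
      · rw [← h4]
        have := Nat.lt_succ_self ((p.1 + p.2) / ℓ)
        have h5 := (Nat.div_lt_iff_lt_mul (by omega : 0 < ℓ)).1 this
        rw [Nat.succ_eq_add_one, add_mul, one_mul] at h5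
        exact h5
    have hdeg1 : ∀ v, (F.filter (fun p => p.1 = v)).card ≤ 2 * k - 1 := by
      intro v
      have h1 := hcl (y * ℓ - v)
      refine le_trans (card_le_card_of_injOn Prod.snd ?_ ?_)
        (show (B.filter (fun b => y * ℓ - v ≤ b ∧ b < y * ℓ - v + ℓ)).card ≤ 2 * k - 1 by omega)
      · intro p hp
        simp only [coe_filter, Set.mem_ofPred_eq] at hp ⊢
        obtain ⟨h2, h3, h4, h5, h6⟩ := hFm p hp.1
        refine ⟨h3, ?_, ?_⟩ <;> omega
      · intro p hp q hq hpq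
        simp only [coe_filter, Set.mem_ofPred_eq] at hp hq
        exact Prod.ext (hp.2.trans hq.2.symm) hpq
    have hdeg2 : ∀ v, (F.filter (fun p => p.2 = v)).card ≤ 2 * k - 1 := by
      intro v
      have h1 := hcl (y * ℓ - v)
      refine le_trans (card_le_card_of_injOn Prod.fst ?_ ?_)
        (show (B.filter (fun b => y * ℓ - v ≤ b ∧ b < y * ℓ - v + ℓ)).card ≤ 2 * k - 1 by omega)
      · intro p hp
        simp only [coe_filter, Set.mem_ofPred_eq] at hp ⊢
        obtain ⟨h2, h3, h4, h5, h6⟩ := hFm p hp.1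
        refine ⟨h2, ?_, ?_⟩ <;> omega
      · intro p hp q hq hpq
        simp only [coe_filter, Set.mem_ofPred_eq] at hp hq
        exact Prod.ext hpq (hp.2.trans hq.2.symm)
    obtain ⟨P, hP1, hP2, hP3⟩ := matching hd k F hdeg1 hdeg2 hy
    refine ⟨P, y * ℓ, hP2, ?_, hP3⟩
    intro p hp
    obtain ⟨h2, h3, h4, h5, h6⟩ := hFm p (hP1 hp)
    exact ⟨h2, h3, h4, h5, by omega⟩

/-- If `a ∈ D` is moved to `a + j a`, some number up to `X` has `k` representations. -/
def Good (w k X : ℕ) (D : Finset ℕ) (j : ℕ → ℕ) : Prop :=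
  D.card ≤ 2 * k ∧ (∀ a, j a < w) ∧
    ∃ n ≤ X, ∀ A : Set ℕ, (∀ a ∈ D, a + j a ∈ A) → k ≤ rep A n

theorem exists_good {B : Finset ℕ} {N ℓ k : ℕ} (hk : 1 ≤ k) (hB : ∀ b ∈ B, b ≤ N) (hℓ : 1 ≤ ℓ)
    (hℓN : ℓ ≤ N) (h : 48 * k ^ 2 * N ≤ B.card ^ 2 * ℓ) :
    ∃ D ⊆ B, ∃ j, Good (2 * ℓ) k (4 * N) D j := by
  classical
  obtain ⟨P, s, hPk, hP, hPd⟩ := pairs_close hk hB hℓ hℓN h
  have hs : s ≤ 2 * N := by
    have h1 : P.Nonempty := by
      rw [← Finset.card_pos]
      omega
    obtain ⟨p, hp⟩ := h1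
    have h2 := hP p hp
    have h3 := hB _ h2.1
    have h4 := hB _ h2.2.1
    omega
  set n := s + 2 * ℓ - 1 with hn
  let j : ℕ → ℕ := fun a => if h : ∃ p ∈ P, p.2 = a then n - (h.choose.1 + a) else 0
  have hj1 : ∀ p ∈ P, j p.1 = 0 := by
    intro p hp
    have : ¬ ∃ q ∈ P, q.2 = p.1 := by
      rintro ⟨q, hq, h1⟩
      by_cases hqp : q = p
      · subst hqp
        exact (hP q hq).2.2.1 h1.symm
      · exact (hPd hq hp hqp).2.2.1 h1
    simp only [j, dif_neg this]
  have hj2 : ∀ p ∈ P, j p.2 = n - (p.1 + p.2) := by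
    intro p hp
    have hex : ∃ q ∈ P, q.2 = p.2 := ⟨p, hp, rfl⟩
    have hq : hex.choose = p := by
      by_contra hne
      exact (hPd hex.choose_spec.1 hp hne).2.2.2 hex.choose_spec.2
    simp only [j, dif_pos hex, hq]
  refine ⟨P.image Prod.fst ∪ P.image Prod.snd, ?_, j, ?_, ?_, n, by omega, ?_⟩
  · intro a ha
    rcases mem_union.1 ha with ha | ha <;> obtain ⟨p, hp, rfl⟩ := mem_image.1 ha
    · exact (hP p hp).1
    · exact (hP p hp).2.1
  · refine (card_union_le _ _).trans ?_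
    have h1 := card_image_le (s := P) (f := Prod.fst)
    have h2 := card_image_le (s := P) (f := Prod.snd)
    omega
  · intro a
    simp only [j]
    split_ifs with hex
    · have h1 := hP _ hex.choose_spec.1
      have h2 := hex.choose_spec.2
      omega
    · omega
  · intro A hA
    have hinj : (P.image Prod.fst).card = k := by
      rw [card_image_of_injOn, hPk]
      intro p hp q hq hpq
      by_contra hne
      exact (hPd hp hq hne).1 hpq
    rw [← hinj]
    refine le_rep _ fun x hx => ?_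
    obtain ⟨p, hp, rfl⟩ := mem_image.1 hx
    have h1 := hP p hp
    have h2 := hA p.1 (mem_union_left _ (mem_image_of_mem _ hp))
    have h3 := hA p.2 (mem_union_right _ (mem_image_of_mem _ hp))
    rw [hj1 p hp, add_zero] at h2
    rw [hj2 p hp] at h3
    refine ⟨by omega, h2, ?_⟩
    have h4 : n - p.1 = p.2 + (n - (p.1 + p.2)) := by omega
    rw [h4]
    exact h3

theorem Good.nonempty {w k X : ℕ} {D : Finset ℕ} {j : ℕ → ℕ} (hk : 1 ≤ k) (h : Good w k X D j) :
    D.Nonempty := by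
  rw [Finset.nonempty_iff_ne_empty]
  rintro rfl
  obtain ⟨-, -, n, -, hn⟩ := h
  have h1 := hn ∅ (by simp)
  have h2 : rep ∅ n = 0 := by simp [rep]
  omega

/-- many disjoint good sets -/
theorem exists_family {B : Finset ℕ} {N ℓ k : ℕ} (hk : 1 ≤ k) (hB : ∀ b ∈ B, b ≤ N) (hℓ : 1 ≤ ℓ)
    (hℓN : ℓ ≤ N) (h : 192 * k ^ 2 * N ≤ B.card ^ 2 * ℓ) :
    ∃ (S : Finset (Finset ℕ)) (j : Finset ℕ → ℕ → ℕ),
      (∀ D ∈ S, D ⊆ B ∧ Good (2 * ℓ) k (4 * N) D (j D)) ∧
      (S : Set (Finset ℕ)).PairwiseDisjoint id ∧ B.card ≤ 4 * k * S.card := by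
  classical
  set C := B.powerset.filter (fun D => ∃ j, Good (2 * ℓ) k (4 * N) D j) with hC
  set FF : Finset (Finset (Finset ℕ)) := C.powerset.filter
    (fun S : Finset (Finset ℕ) => (S : Set (Finset ℕ)).PairwiseDisjoint id) with hFF
  have hne : FF.Nonempty := ⟨∅, by simp [hFF]⟩
  obtain ⟨S, hS, hmax⟩ := Finset.exists_max_image FF (fun S => S.card) hne
  rw [hFF, mem_filter, mem_powerset] at hS
  obtain ⟨hSC, hSd⟩ := hS
  have hSg : ∀ D ∈ S, D ⊆ B ∧ ∃ j, Good (2 * ℓ) k (4 * N) D j := fun D hD => by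
    have := hSC hD
    rw [hC, mem_filter, mem_powerset] at this
    exact this
  refine ⟨S, fun D => if h : ∃ j, Good (2 * ℓ) k (4 * N) D j then h.choose else 0, ?_, hSd, ?_⟩
  · intro D hD
    obtain ⟨h1, h2⟩ := hSg D hD
    refine ⟨h1, ?_⟩
    simp only [dif_pos h2]
    exact h2.choose_spec
  · by_contra hcon
    push Not at hcon
    set U := S.biUnion id with hU
    have hUc : U.card ≤ S.card * (2 * k) :=
      card_biUnion_le_card_mul _ _ _ fun D hD => by
        obtain ⟨j, hj⟩ := (hSg D hD).2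
        exact hj.1
    have hBU : B.card ≤ 2 * (B \ U).card := by
      have h1 : B.card - U.card ≤ (B \ U).card := le_card_sdiff U B
      have h2 : 4 * k * S.card = 2 * (S.card * (2 * k)) := by ring
      omega
    have h3 : 48 * k ^ 2 * N ≤ (B \ U).card ^ 2 * ℓ := by
      have h4 : B.card ^ 2 ≤ (2 * (B \ U).card) ^ 2 := Nat.pow_le_pow_left hBU 2
      have h5 : B.card ^ 2 * ℓ ≤ (2 * (B \ U).card) ^ 2 * ℓ := Nat.mul_le_mul_right _ h4
      have h6 : (2 * (B \ U).card) ^ 2 * ℓ = 4 * ((B \ U).card ^ 2 * ℓ) := by ring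
      have h7 : 192 * k ^ 2 * N = 4 * (48 * k ^ 2 * N) := by ring
      omega
    obtain ⟨D, hD1, j, hD2⟩ := exists_good hk (fun b hb => hB b (mem_sdiff.1 hb).1) hℓ hℓN h3
    have hDne := hD2.nonempty hk
    have hDd : ∀ E ∈ S, Disjoint D E := fun E hE => by
      rw [Finset.disjoint_left]
      intro a ha hE2
      exact (mem_sdiff.1 (hD1 ha)).2 (mem_biUnion.2 ⟨E, hE, hE2⟩)
    have hDS : D ∉ S := fun hDS => by
      have := hDd D hDS
      rw [disjoint_self] at this
      exact hDne.ne_empty this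
    have h8 := hmax (insert D S) (by
      rw [hFF, mem_filter, mem_powerset]
      refine ⟨insert_subset ?_ hSC, ?_⟩
      · rw [hC, mem_filter, mem_powerset]
        exact ⟨hD1.trans sdiff_subset, j, hD2⟩
      · rw [coe_insert, Set.pairwiseDisjoint_insert]
        exact ⟨hSd, fun E hE _ => hDd E hE⟩)
    rw [card_insert_of_notMem hDS] at h8
    omega

end Pool.Agent.E8helper84.SM
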