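import Pool.Agent.E8helper84.SM.SM9

/-!
# Random permutations of the natural numbers with small displacement
-/

set_option autoImplicit false

namespace Pool.Agent.E8helper84.SM

open Finset MeasureTheory ProbabilityTheory Filter

/-- the beginning of the `j`-th block; the length of the block is `h j + 1` -/
def st (h : ℕ → ℕ) (j : ℕ) : ℕ := ∑ i ∈ range j, (h i + 1)

theorem st_succ (h : ℕ → ℕ) (j : ℕ) : st h (j + 1) = st h j + (h j + 1) := sum_range_succ _ _

theorem le_st (h : ℕ → ℕ) (j : ℕ) : j ≤ st h j := by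
  induction j with
  | zero => exact Nat.zero_le _
  | succ j ih =>
    rw [st_succ]
    omega

theorem st_mono (h : ℕ → ℕ) : Monotone (st h) := monotone_nat_of_le_succ fun j => by
  rw [st_succ]
  omega

theorem bl_bij (h : ℕ → ℕ) :
    Function.Bijective (fun p : (j : ℕ) × Fin (h j + 1) => st h p.1 + (p.2 : ℕ)) := by
  constructor
  · rintro ⟨j, i⟩ ⟨j', i'⟩ heq
    simp only at heq
    have e1 := i.isLt
    have e2 := i'.isLt
    have hjj : j = j' := by
      rcases lt_trichotomy j j' with h1 | h1 | h1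
      · have h2 := st_mono h (show j + 1 ≤ j' from h1)
        rw [st_succ] at h2
        omega
      · exact h1
      · have h2 := st_mono h (show j' + 1 ≤ j from h1)
        rw [st_succ] at h2
        omega
    subst hjj
    have : i = i' := Fin.ext (by omega)
    rw [this]
  · have key : ∀ n : ℕ, ∃ j, st h j ≤ n ∧ n < st h (j + 1) := by
      intro n
      induction n with
      | zero =>
        refine ⟨0, Nat.le_refl 0, ?_⟩
        rw [st_succ]
        omega
      | succ n ih =>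
        obtain ⟨j, h1, h2⟩ := ih
        rcases Nat.lt_or_ge (n + 1) (st h (j + 1)) with h3 | h3
        · exact ⟨j, by omega, h3⟩
        · refine ⟨j + 1, h3, ?_⟩
          rw [st_succ h (j + 1)]
          omega
    intro n
    obtain ⟨j, h1, h2⟩ := key n
    rw [st_succ] at h2
    exact ⟨⟨j, ⟨n - st h j, by omega⟩⟩, by simp only; omega⟩

/-- the decomposition of `ℕ` into blocks -/
noncomputable def bl (h : ℕ → ℕ) : ((j : ℕ) × Fin (h j + 1)) ≃ ℕ := Equiv.ofBijective _ (bl_bij h)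

theorem bl_apply (h : ℕ → ℕ) (p : (j : ℕ) × Fin (h j + 1)) : bl h p = st h p.1 + (p.2 : ℕ) := rfl

/-- the index of the block of `n` -/
noncomputable def ix (h : ℕ → ℕ) (n : ℕ) : ℕ := ((bl h).symm n).1

theorem ix_bl (h : ℕ → ℕ) (p : (j : ℕ) × Fin (h j + 1)) : ix h (bl h p) = p.1 := by
  unfold ix
  rw [Equiv.symm_apply_apply]

theorem ix_bounds (h : ℕ → ℕ) (n : ℕ) : st h (ix h n) ≤ n ∧ n < st h (ix h n) + (h (ix h n) + 1) := by
  obtain ⟨p, rfl⟩ := (bl h).surjective n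
  rw [ix_bl, bl_apply]
  have := p.2.isLt
  omega

theorem ix_tendsto (h : ℕ → ℕ) : Tendsto (ix h) atTop atTop := by
  rw [tendsto_atTop]
  intro J
  filter_upwards [eventually_ge_atTop (st h J)] with n hn
  by_contra hcon
  push Not at hcon
  have h1 := (ix_bounds h n).2
  have h2 := st_mono h (show ix h n + 1 ≤ J from hcon)
  rw [st_succ] at h2
  omega

/-- the permutation of `ℕ` which permutes the `j`-th block by `ω j` -/
noncomputable def rp (h : ℕ → ℕ) (ω : (j : ℕ) → Equiv.Perm (Fin (h j + 1))) : Equiv.Perm ℕ :=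
  ((bl h).symm.trans (Equiv.sigmaCongrRight ω)).trans (bl h)

theorem rp_bl (h : ℕ → ℕ) (ω : (j : ℕ) → Equiv.Perm (Fin (h j + 1)))
    (p : (j : ℕ) × Fin (h j + 1)) : rp h ω (bl h p) = st h p.1 + (ω p.1 p.2 : ℕ) := by
  unfold rp
  rw [Equiv.trans_apply, Equiv.trans_apply, Equiv.symm_apply_apply, bl_apply]
  rfl

theorem rp_symm (h : ℕ → ℕ) (ω : (j : ℕ) → Equiv.Perm (Fin (h j + 1))) (n : ℕ) :
    rp h ω (rp h (fun j => (ω j).symm) n) = n := by
  obtain ⟨p, rfl⟩ := (bl h).surjective n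
  have h1 : rp h (fun j => (ω j).symm) (bl h p) = bl h ⟨p.1, (ω p.1).symm p.2⟩ := by
    rw [rp_bl, bl_apply]
  rw [h1, rp_bl, bl_apply]
  simp

theorem rp_disp {h : ℕ → ℕ} (hm : Monotone h) (ω : (j : ℕ) → Equiv.Perm (Fin (h j + 1))) (n : ℕ) :
    rp h ω n ≤ n + h n ∧ n ≤ rp h ω n + h n := by
  obtain ⟨p, rfl⟩ := (bl h).surjective n
  rw [rp_bl]
  have e1 := (ω p.1 p.2).isLt
  have e2 := p.2.isLt
  have e3 : h p.1 ≤ h (bl h p) := hm ((le_st h p.1).trans (by rw [bl_apply]; omega))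
  have e4 := bl_apply h p
  omega

/-- the random permutation -/
noncomputable def ph (h : ℕ → ℕ) (ω : (j : ℕ) → Equiv.Perm (Fin (h j + 1))) : Equiv.Perm ℕ :=
  rp h (fun j => (ω j).symm)

theorem mem_ph {h : ℕ → ℕ} {ω : (j : ℕ) → Equiv.Perm (Fin (h j + 1))} {S : Set ℕ} {n : ℕ} :
    n ∈ (ph h ω) '' S ↔ rp h ω n ∈ S := by
  constructor
  · rintro ⟨s, hs, rfl⟩
    unfold ph
    rw [rp_symm]
    exact hs
  · intro hn
    refine ⟨rp h ω n, hn, ?_⟩
    have h1 := rp_symm h (fun j => (ω j).symm) n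
    simp only [Equiv.symm_symm] at h1
    exact h1

open Classical in
/-- the elements of `S` in the `j`-th block -/
noncomputable def bc (h : ℕ → ℕ) (S : Set ℕ) (j : ℕ) : Finset (Fin (h j + 1)) :=
  univ.filter (fun i => st h j + (i : ℕ) ∈ S)

theorem mem_bc {h : ℕ → ℕ} {S : Set ℕ} {j : ℕ} {i : Fin (h j + 1)} :
    i ∈ bc h S j ↔ st h j + (i : ℕ) ∈ S := by
  classical
  simp only [bc, mem_filter, mem_univ, true_and]

/-- the density of `S` in the block of `n` -/
noncomputable def pd (h : ℕ → ℕ) (S : Set ℕ) (n : ℕ) : ℝ :=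
  (bc h S (ix h n)).card / ((h (ix h n) : ℝ) + 1)

theorem sub_perm (h : ℕ → ℕ) (S : Set ℕ) [∀ j, MeasurableSpace (Equiv.Perm (Fin (h j + 1)))]
    (hms : ∀ j, ∀ A : Set (Equiv.Perm (Fin (h j + 1))), MeasurableSet A) :
    Pool.Agent.Y940.CT.Sub
      (Measure.infinitePi fun j => (PMF.uniformOfFintype (Equiv.Perm (Fin (h j + 1)))).toMeasure)
      (fun n => {ω | rp h ω n ∈ S}) (pd h S) := by
  classical
  refine ⟨fun n => div_nonneg (Nat.cast_nonneg _) (by positivity), fun T => ?_⟩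
  set TT : (j : ℕ) → Finset (Fin (h j + 1)) := fun j =>
    univ.filter (fun i => bl h ⟨j, i⟩ ∈ T) with hTT
  set J := T.image (ix h) with hJ
  have hset : (⋂ n ∈ T, {ω | rp h ω n ∈ S}) =
      Set.pi (J : Set ℕ) (fun j => {τ : Equiv.Perm (Fin (h j + 1)) | ∀ i ∈ TT j, τ i ∈ bc h S j}) := by
    ext ω
    simp only [Set.mem_iInter, Set.mem_ofPred_eq, Set.mem_pi]
    constructor
    · intro h1 j _ i hi
      rw [hTT] at hi
      simp only [mem_filter, mem_univ, true_and] at hi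
      have h2 := h1 _ hi
      rw [rp_bl] at h2
      exact mem_bc.2 h2
    · intro h1 n hn
      obtain ⟨p, rfl⟩ := (bl h).surjective n
      have h2 := h1 p.1 (by
        rw [hJ, mem_coe, mem_image]
        exact ⟨_, hn, ix_bl h p⟩) p.2 (by
        rw [hTT]
        simp only [mem_filter, mem_univ, true_and]
        exact hn)
      rw [rp_bl]
      exact mem_bc.1 h2
  have hcard : ∀ j, (T.filter (fun n => ix h n = j)).card = (TT j).card := by
    intro j
    symm
    refine card_bij (fun i _ => bl h ⟨j, i⟩) ?_ ?_ ?_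
    · intro i hi
      rw [hTT] at hi
      simp only [mem_filter, mem_univ, true_and] at hi
      rw [mem_filter]
      exact ⟨hi, ix_bl h _⟩
    · intro i _ i' _ hii
      have h1 := (bl h).injective hii
      simpa using h1
    · intro n hn
      rw [mem_filter] at hn
      obtain ⟨p, rfl⟩ := (bl h).surjective n
      obtain ⟨h1, h2⟩ := hn
      rw [ix_bl] at h2
      subst h2
      refine ⟨p.2, ?_, rfl⟩
      rw [hTT]
      simp only [mem_filter, mem_univ, true_and]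
      exact h1
  have hprod : ∏ n ∈ T, pd h S n =
      ∏ j ∈ J, (((bc h S j).card : ℝ) / ((h j : ℝ) + 1)) ^ (TT j).card := by
    rw [← prod_fiberwise_of_maps_to (g := ix h) (t := J) (fun n hn => mem_image_of_mem _ hn)]
    refine prod_congr rfl fun j _ => ?_
    rw [← hcard j, ← prod_const]
    refine prod_congr rfl fun n hn => ?_
    rw [← (mem_filter.1 hn).2]
    rfl
  rw [hprod, hset]
  unfold Measure.real
  rw [Measure.infinitePi_pi _ (fun j _ => hms j _), ENNReal.toReal_prod]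
  refine prod_le_prod (fun _ _ => ENNReal.toReal_nonneg) fun j _ => ?_
  have h1 := perm_prob (X := Fin (h j + 1)) (by rw [Fintype.card_fin]; omega) (bc h S j) (TT j)
    (hms j _)
  rw [Fintype.card_fin] at h1
  push_cast at h1
  exact h1

theorem pd_tendsto {h : ℕ → ℕ} (hh : Tendsto h atTop atTop) {S : Set ℕ} (hS : BanachZero S) :
    Tendsto (pd h S) atTop (nhds 0) := by
  classical
  rw [Metric.tendsto_atTop]
  intro η hη
  have h1 : Tendsto (fun n => h (ix h n) + 1) atTop atTop :=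
    (tendsto_add_atTop_nat 1).comp (hh.comp (ix_tendsto h))
  obtain ⟨n0, hn0⟩ := eventually_atTop.1 (h1.eventually (hS (η / 2) (by positivity)))
  refine ⟨n0, fun n hn => ?_⟩
  have h2 := hn0 n hn (st h (ix h n))
  have h3 : 0 ≤ pd h S n := div_nonneg (Nat.cast_nonneg _) (by positivity)
  rw [Real.dist_eq, sub_zero, abs_of_nonneg h3]
  unfold pd
  rw [div_lt_iff₀ (by positivity)]
  have h4 : (bc h S (ix h n)).card ≤
      (S ∩ Set.Ico (st h (ix h n)) (st h (ix h n) + (h (ix h n) + 1))).ncard := by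
    rw [← Set.ncard_coe_finset (bc h S (ix h n))]
    refine Set.ncard_le_ncard_of_injOn (fun i : Fin (h (ix h n) + 1) => st h (ix h n) + (i : ℕ))
      ?_ ?_ ((Set.finite_Ico _ _).subset Set.inter_subset_right)
    · intro i hi
      refine ⟨mem_bc.1 (mem_coe.1 hi), ?_⟩
      have := i.isLt
      rw [Set.mem_Ico]
      omega
    · intro i _ i' _ hii
      simp only at hii
      exact Fin.ext (by omega)
  have h5 : ((bc h S (ix h n)).card : ℝ) ≤
      ((S ∩ Set.Ico (st h (ix h n)) (st h (ix h n) + (h (ix h n) + 1))).ncard : ℝ) := by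
    exact_mod_cast h4
  refine lt_of_le_of_lt (h5.trans h2) ?_
  push_cast
  have h6 : (0 : ℝ) < (h (ix h n) : ℝ) + 1 := by positivity
  exact mul_lt_mul_of_pos_right (by linarith) h6

/-- a common minorant of countably many functions tending to infinity -/
theorem exists_minorant (g : ℕ → ℕ → ℝ) (hg : ∀ i, Tendsto (g i) atTop atTop) :
    ∃ f : ℕ → ℝ, Tendsto f atTop atTop ∧ ∀ i, ∀ᶠ n in atTop, f n ≤ g i n := by
  classical
  set Q : ℕ → ℕ → Prop := fun n m => ∀ i ≤ m, ∀ n' ≥ n, (m : ℝ) ≤ g i n' with hQ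
  set m : ℕ → ℕ := fun n => ((range (n + 1)).filter (fun k => Q n k)).sup id with hm
  have hlim : ∀ M : ℕ, ∀ᶠ n in atTop, M ≤ m n := by
    intro M
    have h1 : ∀ i, ∃ n0, ∀ n' ≥ n0, (M : ℝ) ≤ g i n' := fun i =>
      eventually_atTop.1 ((hg i).eventually_ge_atTop _)
    choose n0 hn0 using h1
    filter_upwards [eventually_ge_atTop ((∑ i ∈ range (M + 1), n0 i) + M)] with n hn
    rw [hm]
    simp only
    refine Finset.le_sup (f := id) (b := M) ?_
    rw [mem_filter, mem_range]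
    refine ⟨by omega, fun i hi n' hn' => hn0 i n' ?_⟩
    have h2 : n0 i ≤ ∑ i ∈ range (M + 1), n0 i :=
      Finset.single_le_sum (f := n0) (fun _ _ => Nat.zero_le _) (mem_range.2 (by omega))
    omega
  have hmem : ∀ n, 0 < m n → Q n (m n) := by
    intro n hn
    have hne : ((range (n + 1)).filter (fun k => Q n k)).Nonempty := by
      by_contra hcon
      rw [Finset.not_nonempty_iff_eq_empty] at hcon
      rw [hm] at hn
      simp only [hcon, Finset.sup_empty] at hn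
      exact absurd hn (lt_irrefl _)
    obtain ⟨k, hk, hk2⟩ := Finset.exists_mem_eq_sup _ hne id
    rw [mem_filter] at hk
    have h3 : m n = k := hk2
    rw [h3]
    exact hk.2
  refine ⟨fun n => (m n : ℝ), ?_, fun i => ?_⟩
  · exact tendsto_natCast_atTop_atTop.comp (tendsto_atTop.2 hlim)
  · filter_upwards [hlim (i + 1)] with n hn
    exact hmem n (by omega) i (by omega) n le_rfl

theorem Forces.anti {g g' : ℕ → ℝ} {S : Set ℕ} (h : Forces g S) (hg : ∀ᶠ N in atTop, g' N ≤ g N) :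
    Forces g' S := by
  rintro B hB ⟨c, hc, hf⟩
  refine h B hB ⟨c, hc, (hf.and_eventually hg).mono fun N hN => ?_⟩
  exact hN.1.trans (mul_le_mul_of_nonneg_right hN.2 (by unfold count; positivity))

section random

variable {h : ℕ → ℕ} [∀ j, MeasurableSpace (Equiv.Perm (Fin (h j + 1)))]

theorem ae_banach (hms : ∀ j, ∀ A : Set (Equiv.Perm (Fin (h j + 1))), MeasurableSet A)
    (hh : Tendsto h atTop atTop) {S : Set ℕ} (hS : BanachZero S) :
    ∃ g : ℕ → ℝ, Tendsto g atTop atTop ∧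
      ∀ᵐ ω ∂(Measure.infinitePi fun j =>
        (PMF.uniformOfFintype (Equiv.Perm (Fin (h j + 1)))).toMeasure),
      Forces g (ph h ω '' S) := by
  obtain ⟨g, hg1, hg2, hg3⟩ := Pool.Agent.Y940.CT.exists_g (pd_tendsto hh hS)
  refine ⟨g, hg1, ?_⟩
  have h2 := Pool.Agent.Y940.CT.forces_inside (sub_perm h S hms) hg1 hg2 hg3
  filter_upwards [h2] with ω hω
  rintro B hB ⟨c, hc, hf⟩ k
  have hB' : B ⊆ Pool.Agent.Y940.RS.rset (fun n => {ω | rp h ω n ∈ S}) ω := by
    intro n hn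
    exact mem_ph.1 (hB hn)
  obtain ⟨n, hn⟩ := hω B hB' c hc hf k
  rw [rep_eq] at hn
  exact ⟨n, hn.le⟩

theorem st_le (hm : Monotone h) (j : ℕ) : st h (j + 1) ≤ (j + 1) * (h j + 1) := by
  unfold st
  calc ∑ i ∈ range (j + 1), (h i + 1) ≤ ∑ _i ∈ range (j + 1), (h j + 1) := by
        refine sum_le_sum fun i hi => ?_
        have := hm (show i ≤ j by rw [mem_range] at hi; omega)
        omega
    _ = (j + 1) * (h j + 1) := by rw [sum_const, card_range, smul_eq_mul]

theorem ix_large (hm : Monotone h) (hsv : SlowVar h) :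
    ∀ᶠ n : ℕ in atTop, (n : ℝ) ^ ((1 : ℝ) / 2) ≤ ix h n := by
  filter_upwards [hsv.small hm (show (0 : ℝ) < 1 / 4 by norm_num),
    (tendsto_rpow_nat (show (0 : ℝ) < 1 / 4 by norm_num)).eventually_ge_atTop 4,
    eventually_ge_atTop 1] with n h1 h2 h3
  by_contra hcon
  push Not at hcon
  have hn1 : (1 : ℝ) ≤ n := by exact_mod_cast h3
  have hn0 : (0 : ℝ) < n := by linarith
  have h4 := (ix_bounds h n).2
  rw [← st_succ] at h4
  have h5 := st_le hm (ix h n)
  have h6 : ix h n ≤ n := (le_st h _).trans (ix_bounds h n).1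
  have h7 : (h (ix h n) : ℝ) ≤ (n : ℝ) ^ ((1 : ℝ) / 4) := by
    have : (h (ix h n) : ℝ) ≤ h n := by exact_mod_cast hm h6
    linarith
  have h8 : (n : ℝ) < ((ix h n : ℝ) + 1) * ((h (ix h n) : ℝ) + 1) := by
    have : n < (ix h n + 1) * (h (ix h n) + 1) := lt_of_lt_of_le h4 h5
    exact_mod_cast this
  have h9 : (1 : ℝ) ≤ (n : ℝ) ^ ((1 : ℝ) / 2) := Real.one_le_rpow hn1 (by norm_num)
  have h10 : ((ix h n : ℝ) + 1) * ((h (ix h n) : ℝ) + 1) ≤
      (2 * (n : ℝ) ^ ((1 : ℝ) / 2)) * (2 * (n : ℝ) ^ ((1 : ℝ) / 4)) :=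
    mul_le_mul (by linarith) (by linarith) (by positivity) (by positivity)
  have h11 : (n : ℝ) = (n : ℝ) ^ ((1 : ℝ) / 4) * ((n : ℝ) ^ ((1 : ℝ) / 2) * (n : ℝ) ^ ((1 : ℝ) / 4)) := by
    rw [← Real.rpow_add hn0, ← Real.rpow_add hn0]
    norm_num
  have h12 : 0 < (n : ℝ) ^ ((1 : ℝ) / 2) * (n : ℝ) ^ ((1 : ℝ) / 4) := by positivity
  have h13 : 4 * ((n : ℝ) ^ ((1 : ℝ) / 2) * (n : ℝ) ^ ((1 : ℝ) / 4)) ≤ n := by
    calc 4 * ((n : ℝ) ^ ((1 : ℝ) / 2) * (n : ℝ) ^ ((1 : ℝ) / 4))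
        ≤ (n : ℝ) ^ ((1 : ℝ) / 4) * ((n : ℝ) ^ ((1 : ℝ) / 2) * (n : ℝ) ^ ((1 : ℝ) / 4)) :=
          mul_le_mul_of_nonneg_right h2 h12.le
      _ = n := h11.symm
  linarith

theorem bc_le (hm : Monotone h) {S : Set ℕ} {C : ℕ} (hS : Sparse C h S) (j : ℕ) :
    (bc h S j).card ≤ C := by
  classical
  refine le_trans ?_ (hS (st h j))
  rw [← Set.ncard_coe_finset (bc h S j)]
  refine Set.ncard_le_ncard_of_injOn (fun i : Fin (h j + 1) => st h j + (i : ℕ))
    ?_ ?_ ((Set.finite_Icc _ _).subset Set.inter_subset_right)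
  · intro i hi
    refine ⟨mem_bc.1 (mem_coe.1 hi), ?_⟩
    have h1 := i.isLt
    have h2 := hm (le_st h j)
    rw [Set.mem_Icc]
    omega
  · intro i _ i' _ hii
    simp only at hii
    exact Fin.ext (by omega)

theorem ae_sparse (hms : ∀ j, ∀ A : Set (Equiv.Perm (Fin (h j + 1))), MeasurableSet A)
    (hm : Monotone h) (hh : Tendsto h atTop atTop) (hsv : SlowVar h) {S : Set ℕ} {C : ℕ}
    (hS : Sparse C h S) (K : ℕ) :
    ∃ C' : ℝ, 0 < C' ∧ ∀ᵐ ω ∂(Measure.infinitePi fun j =>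
        (PMF.uniformOfFintype (Equiv.Perm (Fin (h j + 1)))).toMeasure),
      ∀ B : Set ℕ, B ⊆ ph h ω '' S → (∀ n, rep B n ≤ K) →
        ∀ᶠ N : ℕ in atTop, count B N ≤ C' * Real.sqrt (N / h N) := by
  obtain ⟨C₁, hC₁, hae⟩ := Pool.Agent.Y940.CT.ae_subsets K
  obtain ⟨K₂, hK₂0, hK₂⟩ := hsv.root hm
  set C₂ : ℝ := ((C : ℝ) + 1) * K₂ with hC₂
  have hK₂1 : (1 : ℝ) ≤ K₂ := by exact_mod_cast hK₂0
  have hC₂1 : 1 ≤ C₂ := by
    rw [hC₂]
    have : (0 : ℝ) ≤ C := Nat.cast_nonneg C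
    nlinarith
  set κ : ℝ := 1 / (4 * ((K : ℝ) + 1)) with hκ
  have hκ0 : 0 < κ := by positivity
  have h1 := hae (Measure.infinitePi fun j =>
    (PMF.uniformOfFintype (Equiv.Perm (Fin (h j + 1)))).toMeasure) _ _ (sub_perm h S hms)
    (fun N => N / h N) (fun N => C₂ / h N) ?_
  · refine ⟨Real.sqrt (3 * K) + C₁ * Real.sqrt C₂, by positivity, ?_⟩
    filter_upwards [h1] with ω hω B hB hK
    have hB' : B ⊆ Pool.Agent.Y940.RS.rset (fun n => {ω | rp h ω n ∈ S}) ω := by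
      intro n hn
      exact mem_ph.1 (hB hn)
    filter_upwards [hω B hB' (fun s => by rw [rep_eq]; exact hK s), hh.eventually_ge_atTop 1,
      hsv.small hm (show (0 : ℝ) < 1 by norm_num)] with N h2 h3 h4
    have h5 : (1 : ℝ) ≤ h N := by exact_mod_cast h3
    rw [Real.rpow_one] at h4
    have hh0 : (0 : ℝ) < h N := by linarith
    have h6 : (1 : ℝ) ≤ N / h N := by
      rw [le_div_iff₀ hh0]
      linarith
    have h7 : ((N / h N : ℕ) : ℝ) ≤ N / h N := Nat.cast_div_le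
    have h8 : (K : ℝ) * (2 * ((N / h N : ℕ) : ℝ) + 1) ≤ 3 * K * (N / h N) := by
      have : (K : ℝ) * (2 * ((N / h N : ℕ) : ℝ) + 1) ≤ K * (3 * (N / h N)) :=
        mul_le_mul_of_nonneg_left (by linarith) (Nat.cast_nonneg K)
      linarith
    have h9 : count B N ≤ Real.sqrt (K * (2 * ((N / h N : ℕ) : ℝ) + 1)) +
      C₁ * Real.sqrt (C₂ / h N * N) := h2
    have h10 : Real.sqrt (K * (2 * ((N / h N : ℕ) : ℝ) + 1)) ≤
        Real.sqrt (3 * K) * Real.sqrt (N / h N) := by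
      rw [← Real.sqrt_mul (by positivity)]
      exact Real.sqrt_le_sqrt h8
    have h11 : Real.sqrt (C₂ / h N * N) = Real.sqrt C₂ * Real.sqrt (N / h N) := by
      rw [← Real.sqrt_mul (by linarith)]
      congr 1
      ring
    rw [h11] at h9
    calc count B N ≤ Real.sqrt (3 * K) * Real.sqrt (N / h N) +
          C₁ * (Real.sqrt C₂ * Real.sqrt (N / h N)) := by linarith
      _ = (Real.sqrt (3 * K) + C₁ * Real.sqrt C₂) * Real.sqrt (N / h N) := by ring
  · -- the conditions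
    obtain ⟨n0, hn0⟩ := eventually_atTop.1 (ix_large hm hsv)
    filter_upwards [hsv.small hm hκ0, hh.eventually_ge_atTop 1,
      (tendsto_natCast_atTop_atTop.comp hh).eventually_ge_atTop (3 * C₂),
      hsv.small hm (show (0 : ℝ) < 1 / 3 by norm_num), hK₂,
      (tendsto_rpow_nat (show (0 : ℝ) < 2 / 3 by norm_num)).eventually_ge_atTop (n0 : ℝ),
      eventually_ge_atTop 1] with N h2 h3 h4 h5 h6 h7 h8
    have hN1 : (1 : ℝ) ≤ N := by exact_mod_cast h8
    have hN0 : (0 : ℝ) < N := by linarith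
    have hh1 : (1 : ℝ) ≤ h N := by exact_mod_cast h3
    have hh0 : (0 : ℝ) < h N := by linarith
    simp only [Function.comp_apply] at h4
    refine ⟨?_, ?_, ?_⟩
    · rw [Real.rpow_neg hN0.le, le_div_iff₀ hh0, inv_mul_le_iff₀ (Real.rpow_pos_of_pos hN0 _)]
      have h9 : 0 < (N : ℝ) ^ κ := Real.rpow_pos_of_pos hN0 _
      nlinarith
    · rw [div_le_iff₀ hh0]
      linarith
    · intro n hn1 _
      have e1 : N < n * h N := by
        have := (Nat.div_lt_iff_lt_mul (by omega)).1 hn1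
        exact this
      have e2 : (N : ℝ) < n * h N := by exact_mod_cast e1
      have e3 : (N : ℝ) ^ ((2 : ℝ) / 3) ≤ n := by
        have e4 : (N : ℝ) ≤ n * (N : ℝ) ^ ((1 : ℝ) / 3) :=
          e2.le.trans (mul_le_mul_of_nonneg_left h5 (Nat.cast_nonneg n))
        have e5 : (N : ℝ) = (N : ℝ) ^ ((2 : ℝ) / 3) * (N : ℝ) ^ ((1 : ℝ) / 3) := by
          rw [← Real.rpow_add hN0]
          norm_num
        have e6 : 0 < (N : ℝ) ^ ((1 : ℝ) / 3) := Real.rpow_pos_of_pos hN0 _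
        have e7 : (N : ℝ) ^ ((2 : ℝ) / 3) * (N : ℝ) ^ ((1 : ℝ) / 3) ≤
            n * (N : ℝ) ^ ((1 : ℝ) / 3) := by
          rw [← e5]
          exact e4
        exact le_of_mul_le_mul_right e7 e6
      have e4 : n0 ≤ n := by
        have : (n0 : ℝ) ≤ n := h7.trans e3
        exact_mod_cast this
      have e5 := hn0 n e4
      have e6 : (N : ℝ) ^ ((1 : ℝ) / 3) ≤ ix h n := by
        refine le_trans ?_ e5
        calc (N : ℝ) ^ ((1 : ℝ) / 3) = ((N : ℝ) ^ ((2 : ℝ) / 3)) ^ ((1 : ℝ) / 2) := by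
              rw [← Real.rpow_mul hN0.le]
              norm_num
          _ ≤ (n : ℝ) ^ ((1 : ℝ) / 2) :=
              Real.rpow_le_rpow (Real.rpow_nonneg hN0.le _) e3 (by norm_num)
      have e7 : ⌊(N : ℝ) ^ ((1 : ℝ) / 3)⌋₊ ≤ ix h n := Nat.floor_le_of_le e6
      have e8 : h N ≤ K₂ * h (ix h n) := h6.trans (Nat.mul_le_mul_left _ (hm e7))
      have e9 : (h N : ℝ) ≤ K₂ * h (ix h n) := by exact_mod_cast e8
      unfold pd
      have e10 : ((bc h S (ix h n)).card : ℝ) ≤ C := by exact_mod_cast bc_le hm hS _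
      rw [div_le_div_iff₀ (by positivity) hh0]
      calc ((bc h S (ix h n)).card : ℝ) * h N ≤ C * (K₂ * h (ix h n)) :=
            mul_le_mul e10 e9 hh0.le (Nat.cast_nonneg _)
        _ ≤ C₂ * ((h (ix h n) : ℝ) + 1) := by
            rw [hC₂]
            have f1 : (0 : ℝ) ≤ C := Nat.cast_nonneg _
            have f2 : (0 : ℝ) ≤ h (ix h n) := Nat.cast_nonneg _
            have f3 : 0 ≤ (K₂ : ℝ) * h (ix h n) := by positivity
            nlinarith

end random

/-- **Permutations with small displacement.** -/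
theorem exists_perm {h : ℕ → ℕ} (hm : Monotone h) (hh : Tendsto h atTop atTop)
    (S : ℕ → Set ℕ) :
    ∃ φ : Equiv.Perm ℕ, Disp h φ ∧
      (∃ g : ℕ → ℝ, Tendsto g atTop atTop ∧ ∀ i, BanachZero (S i) → Forces g (φ '' S i)) ∧
      (SlowVar h → ∀ i, (∃ C, Sparse C h (S i)) → ∀ K, ∃ C' : ℝ, 0 < C' ∧
        ∀ B : Set ℕ, B ⊆ φ '' S i → (∀ n, rep B n ≤ K) →
          ∀ᶠ N : ℕ in atTop, count B N ≤ C' * Real.sqrt (N / h N)) := by
  classical
  let inst : ∀ j, MeasurableSpace (Equiv.Perm (Fin (h j + 1))) := fun _ => ⊤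
  have hms : ∀ j, ∀ A : Set (Equiv.Perm (Fin (h j + 1))), MeasurableSet[inst j] A := fun _ _ =>
    MeasurableSpace.measurableSet_top
  have h1 : ∀ i, ∃ g : ℕ → ℝ, Tendsto g atTop atTop ∧
      ∀ᵐ ω ∂(Measure.infinitePi fun j =>
        (PMF.uniformOfFintype (Equiv.Perm (Fin (h j + 1)))).toMeasure),
      BanachZero (S i) → Forces g (ph h ω '' S i) := by
    intro i
    by_cases hS : BanachZero (S i)
    · obtain ⟨g, hg1, hg2⟩ := ae_banach hms hh hS
      exact ⟨g, hg1, hg2.mono fun ω hω _ => hω⟩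
    · exact ⟨fun n => (n : ℝ), tendsto_natCast_atTop_atTop,
        Eventually.of_forall fun ω h2 => absurd h2 hS⟩
  choose g hg1 hg2 using h1
  obtain ⟨f, hf1, hf2⟩ := exists_minorant g hg1
  have h2 : ∀ i K, ∀ᵐ ω ∂(Measure.infinitePi fun j =>
        (PMF.uniformOfFintype (Equiv.Perm (Fin (h j + 1)))).toMeasure),
      SlowVar h → (∃ C, Sparse C h (S i)) → ∃ C' : ℝ, 0 < C' ∧
        ∀ B : Set ℕ, B ⊆ ph h ω '' S i → (∀ n, rep B n ≤ K) →
          ∀ᶠ N : ℕ in atTop, count B N ≤ C' * Real.sqrt (N / h N) := by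
    intro i K
    by_cases hc : SlowVar h ∧ ∃ C, Sparse C h (S i)
    · obtain ⟨hsv, C, hC⟩ := hc
      obtain ⟨C', hC'0, hC'⟩ := ae_sparse hms hm hh hsv hC K
      filter_upwards [hC'] with ω hω _ _
      exact ⟨C', hC'0, hω⟩
    · exact Eventually.of_forall fun ω h3 h4 => absurd ⟨h3, h4⟩ hc
  obtain ⟨ω, hω1, hω2⟩ := ((ae_all_iff.2 hg2).and
    (ae_all_iff.2 fun i => ae_all_iff.2 fun K => h2 i K)).exists
  refine ⟨ph h ω, fun n => rp_disp hm _ n, ⟨f, hf1, fun i hS => (hω1 i hS).anti (hf2 i)⟩,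
    fun hsv i hC K => hω2 i K hsv hC⟩

end Pool.Agent.E8helper84.SM
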