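import Pool.Agent.E8helper84.SM.SM6

/-!
# Quantitative form for uniformly distributed perturbations
-/

set_option autoImplicit false

namespace Pool.Agent.E8helper84.SM

open Finset MeasureTheory ProbabilityTheory Filter

universe u

variable {Ω : Type u} [MeasurableSpace Ω] {μ : Measure Ω} [IsProbabilityMeasure μ]

/-- the bound at a single scale -/
theorem scale_bound {ε : ℕ → Ω → ℕ} (hε : ∀ a, Measurable (ε a)) (hi : iIndepFun ε μ)
    {A : Set ℕ} {N k H : ℕ} {x g c π : ℝ} (hN : 1 ≤ N) (hk : 1 ≤ k) (hH : 2 ≤ H) (hHN : H ≤ N)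
    (hx0 : 0 ≤ x) (hc : 0 < c) (hg : 0 < g) (hx : x * (2 * g) ≤ c * Real.sqrt N)
    (hA : c * Real.sqrt N ≤ g * count A N) (hcond : 2304 * (k : ℝ) ^ 2 * g ^ 2 ≤ c ^ 2 * H)
    (hπ : 0 ≤ π) (hp : ∀ a : ℕ, x ≤ a → a ≤ N → ∀ i < H, π ≤ μ.real {ω | ε a ω = i}) :
    μ.real {ω | ∀ n ≤ 4 * N, rep (shift (fun a => ε a ω) A) n < k} ≤
      Real.exp (-(c * Real.sqrt N / (8 * k * g) * π ^ (2 * k))) := by
  have hk0 : (0 : ℝ) < k := by exact_mod_cast hk
  have hNp : (0 : ℝ) < N := by exact_mod_cast hN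
  set B := seg A x N with hB
  have hBmem : ∀ b ∈ B, b ∈ A ∧ x ≤ b ∧ b ≤ N := by
    intro b hb
    rw [hB, mem_seg] at hb
    exact ⟨hb.2.1, hb.2.2, hb.1.2⟩
  have hcnt := count_le_seg A hx0 N
  rw [← hB] at hcnt
  have hBc : c * Real.sqrt N ≤ 2 * g * B.card := by
    have h1 : g * count A N ≤ g * (B.card + x) := mul_le_mul_of_nonneg_left hcnt hg.le
    have h2 : g * (B.card + x) = g * B.card + g * x := by ring
    have h3 : x * (2 * g) = 2 * (g * x) := by ring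
    linarith
  set ℓ := H / 2 with hℓ
  have hℓ1 : 1 ≤ ℓ := by omega
  have hℓ3 : H ≤ 3 * ℓ := by omega
  have hcond2 : 192 * k ^ 2 * N ≤ B.card ^ 2 * ℓ := by
    have h1 : (c * Real.sqrt N) ^ 2 ≤ (2 * g * B.card) ^ 2 :=
      pow_le_pow_left₀ (by positivity) hBc 2
    rw [mul_pow, Real.sq_sqrt hNp.le] at h1
    have h2 : (H : ℝ) ≤ 3 * ℓ := by exact_mod_cast hℓ3
    have h5 : (192 * (k : ℝ) ^ 2 * N) * (12 * g ^ 2) ≤ (B.card ^ 2 * ℓ) * (12 * g ^ 2) := by
      calc (192 * (k : ℝ) ^ 2 * N) * (12 * g ^ 2) = (2304 * (k : ℝ) ^ 2 * g ^ 2) * N := by ring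
        _ ≤ (c ^ 2 * H) * N := mul_le_mul_of_nonneg_right hcond hNp.le
        _ = (c ^ 2 * N) * H := by ring
        _ ≤ (2 * g * B.card) ^ 2 * H := mul_le_mul_of_nonneg_right h1 (Nat.cast_nonneg _)
        _ ≤ (2 * g * B.card) ^ 2 * (3 * ℓ) := mul_le_mul_of_nonneg_left h2 (sq_nonneg _)
        _ = (B.card ^ 2 * ℓ) * (12 * g ^ 2) := by ring
    have h6 := le_of_mul_le_mul_right h5 (by positivity)
    exact_mod_cast h6
  have hfin := finite_form hε hi (A := A) (B := B) (fun b hb => (hBmem b hb).1) hk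
    (fun b hb => (hBmem b hb).2.2) hℓ1 (by omega) hcond2 hπ
    (fun b hb i hi' => hp b (hBmem b hb).2.1 (hBmem b hb).2.2 i (by omega))
  refine hfin.trans (Real.exp_le_exp.2 (neg_le_neg ?_))
  refine mul_le_mul_of_nonneg_right ?_ (by positivity)
  rw [div_le_div_iff₀ (by positivity) (by positivity)]
  have h1 : (c * Real.sqrt N) * (4 * k) ≤ (2 * g * B.card) * (4 * k) :=
    mul_le_mul_of_nonneg_right hBc (by positivity)
  calc c * Real.sqrt N * (4 * k) ≤ (2 * g * B.card) * (4 * k) := h1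
    _ = B.card * (8 * k * g) := by ring

/-- **Quantitative form.** -/
theorem ae_quant {ε : ℕ → Ω → ℕ} (hε : ∀ a, Measurable (ε a)) (hi : iIndepFun ε μ)
    {h : ℕ → ℕ} (hm : Monotone h) (hh : Tendsto h atTop atTop)
    (hu : ∀ᶠ a in atTop, ∀ i < h a, 1 / ((h a : ℝ) + 1) ≤ μ.real {ω | ε a ω = i})
    {g : ℕ → ℝ} {c : ℝ} (hc : 0 < c) {k : ℕ → ℕ}
    (hk1 : ∀ᶠ N : ℕ in atTop, 48 * k N * g N ≤ c * Real.sqrt (h ⌊(N : ℝ) ^ ((1 : ℝ) / 3)⌋₊))
    (hk2 : ∀ᶠ N : ℕ in atTop, 16 * k N * Real.log (h N + 1) ≤ Real.log N)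
    {A : Set ℕ} (hA : ∀ᶠ N : ℕ in atTop, c * Real.sqrt N ≤ g N * count A N) :
    ∀ᵐ ω ∂μ, ∀ᶠ N : ℕ in atTop, ∃ n ≤ 4 * N, k N ≤ rep (shift (fun a => ε a ω) A) n := by
  obtain ⟨a0, ha0⟩ := eventually_atTop.1 hu
  have hfl := floor_tendsto (show (0 : ℝ) < 1 / 3 by norm_num)
  -- the bound for a single large `N`
  have key : ∀ᶠ N : ℕ in atTop,
      μ.real {ω | ∀ n ≤ 4 * N, rep (shift (fun a => ε a ω) A) n < k N} ≤
        Real.exp (-(1 * (N : ℝ) ^ ((1 : ℝ) / 4))) := by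
    filter_upwards [hk1, hk2, hA, (hh.comp hfl).eventually_ge_atTop 2,
      (tendsto_rpow_nat (show (0 : ℝ) < 1 / 3 by norm_num)).eventually_ge_atTop ((a0 : ℝ) + 1),
      eventually_ge_atTop 1] with N h1 h2 h3 h4 h5 h6
    simp only [Function.comp_apply] at h4
    rcases Nat.eq_zero_or_pos (k N) with hk0 | hk0
    · rw [hk0]
      have : {ω | ∀ n ≤ 4 * N, rep (shift (fun a => ε a ω) A) n < 0} = ∅ := by
        rw [Set.eq_empty_iff_forall_notMem]
        intro ω hω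
        exact absurd (hω 0 (Nat.zero_le _)) (Nat.not_lt_zero _)
      rw [this, measureReal_empty]
      exact (Real.exp_pos _).le
    have hN1 : (1 : ℝ) ≤ N := by exact_mod_cast h6
    have hN0 : (0 : ℝ) < N := by linarith
    set M := ⌊(N : ℝ) ^ ((1 : ℝ) / 3)⌋₊ with hM
    have hkR : (1 : ℝ) ≤ k N := by exact_mod_cast hk0
    have hMN : M ≤ N := by
      have e1 : (M : ℝ) ≤ (N : ℝ) ^ ((1 : ℝ) / 3) := Nat.floor_le (by positivity)
      have e2 : (N : ℝ) ^ ((1 : ℝ) / 3) ≤ (N : ℝ) ^ (1 : ℝ) :=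
        Real.rpow_le_rpow_of_exponent_le hN1 (by norm_num)
      rw [Real.rpow_one] at e2
      exact_mod_cast e1.trans e2
    have hHN : h M ≤ h N := hm hMN
    have hh2 : (2 : ℝ) ≤ h M := by exact_mod_cast h4
    have hhN : (h M : ℝ) ≤ h N := by exact_mod_cast hHN
    have hlog0 : 0 < Real.log (h N + 1) := Real.log_pos (by linarith)
    -- the range is small
    have hsmall : ((h N : ℝ) + 1) ^ (2 * k N) ≤ (N : ℝ) ^ ((1 : ℝ) / 8) := by
      rw [← Real.log_le_log_iff (by positivity) (by positivity), Real.log_pow, Real.log_rpow hN0]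
      push_cast
      linarith
    have hhle : (h N : ℝ) + 1 ≤ (N : ℝ) ^ ((1 : ℝ) / 16) := by
      rw [← Real.log_le_log_iff (by positivity) (by positivity), Real.log_rpow hN0]
      have e1 : 16 * 1 * Real.log (h N + 1) ≤ 16 * k N * Real.log (h N + 1) :=
        mul_le_mul_of_nonneg_right (by linarith) hlog0.le
      linarith
    have hsqrt : Real.sqrt (h M) ≤ (N : ℝ) ^ ((1 : ℝ) / 32) := by
      rw [Real.sqrt_eq_rpow]
      calc (h M : ℝ) ^ ((1 : ℝ) / 2) ≤ ((N : ℝ) ^ ((1 : ℝ) / 16)) ^ ((1 : ℝ) / 2) :=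
            Real.rpow_le_rpow (by linarith) (by linarith) (by norm_num)
        _ = (N : ℝ) ^ ((1 : ℝ) / 32) := by
            rw [← Real.rpow_mul hN0.le]
            norm_num
    have hg0 : 0 < g N := by
      by_contra hcon
      push Not at hcon
      have e1 : g N * count A N ≤ 0 :=
        mul_nonpos_of_nonpos_of_nonneg hcon (by unfold count; positivity)
      have e2 : 0 < c * Real.sqrt N := mul_pos hc (Real.sqrt_pos.2 hN0)
      linarith
    have hkg : 48 * k N * g N ≤ c * (N : ℝ) ^ ((1 : ℝ) / 32) :=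
      h1.trans (mul_le_mul_of_nonneg_left hsqrt hc.le)
    have hgle : 48 * g N ≤ c * (N : ℝ) ^ ((1 : ℝ) / 32) := by
      refine le_trans ?_ hkg
      have : 48 * g N * 1 ≤ 48 * g N * k N := mul_le_mul_of_nonneg_left hkR (by positivity)
      linarith
    have hsN : Real.sqrt N = (N : ℝ) ^ ((1 : ℝ) / 2) := Real.sqrt_eq_rpow _
    have hx : (N : ℝ) ^ ((1 : ℝ) / 3) * (2 * g N) ≤ c * Real.sqrt N := by
      have e1 : (N : ℝ) ^ ((1 : ℝ) / 3) * (2 * g N) ≤
          (N : ℝ) ^ ((1 : ℝ) / 3) * (c * (N : ℝ) ^ ((1 : ℝ) / 32)) :=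
        mul_le_mul_of_nonneg_left (by linarith) (by positivity)
      have e2 : (N : ℝ) ^ ((1 : ℝ) / 3) * (c * (N : ℝ) ^ ((1 : ℝ) / 32)) =
          c * (N : ℝ) ^ ((1 : ℝ) / 3 + 1 / 32) := by
        rw [Real.rpow_add hN0]
        ring
      rw [e2] at e1
      refine e1.trans (mul_le_mul_of_nonneg_left ?_ hc.le)
      rw [hsN]
      exact Real.rpow_le_rpow_of_exponent_le hN1 (by norm_num)
    have hcond : 2304 * (k N : ℝ) ^ 2 * g N ^ 2 ≤ c ^ 2 * (h M : ℕ) := by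
      have e1 : (48 * k N * g N) ^ 2 ≤ (c * Real.sqrt (h M)) ^ 2 :=
        pow_le_pow_left₀ (by positivity) h1 2
      rw [mul_pow c, Real.sq_sqrt (by positivity)] at e1
      have e2 : (48 * (k N : ℝ) * g N) ^ 2 = 2304 * (k N : ℝ) ^ 2 * g N ^ 2 := by ring
      rw [e2] at e1
      exact e1
    have hHN2 : h M ≤ N := by
      have e1 : (h M : ℝ) ≤ N := by
        calc (h M : ℝ) ≤ (N : ℝ) ^ ((1 : ℝ) / 16) := by linarith
          _ ≤ (N : ℝ) ^ (1 : ℝ) := Real.rpow_le_rpow_of_exponent_le hN1 (by norm_num)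
          _ = N := Real.rpow_one _
      exact_mod_cast e1
    have hmain := scale_bound hε hi (A := A) (N := N) (k := k N) (H := h M)
      (x := (N : ℝ) ^ ((1 : ℝ) / 3)) (g := g N) (c := c) (π := 1 / ((h N : ℝ) + 1)) h6 hk0 h4 hHN2
      (by positivity) hc hg0 hx h3 hcond (by positivity) (by
        intro a ha1 ha2 i hi'
        have e1 : (a0 : ℝ) + 1 ≤ a := h5.trans ha1
        have e2 : a0 + 1 ≤ a := by exact_mod_cast e1
        have e3 : M ≤ a := Nat.floor_le_of_le ha1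
        refine le_trans ?_ (ha0 a (by omega) i (lt_of_lt_of_le hi' (hm e3)))
        have e4 : (h a : ℝ) ≤ h N := by exact_mod_cast hm ha2
        exact one_div_le_one_div_of_le (by positivity) (by linarith))
    refine hmain.trans (Real.exp_le_exp.2 (neg_le_neg ?_))
    -- the exponent
    have e1 : (N : ℝ) ^ (-((1 : ℝ) / 8)) ≤ (1 / ((h N : ℝ) + 1)) ^ (2 * k N) := by
      have e0 : (1 / ((h N : ℝ) + 1)) ^ (2 * k N) = (((h N : ℝ) + 1) ^ (2 * k N))⁻¹ := by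
        rw [one_div, inv_pow]
      rw [e0, Real.rpow_neg hN0.le]
      exact inv_anti₀ (by positivity) hsmall
    have e2 : 6 * (N : ℝ) ^ ((1 : ℝ) / 2 - 1 / 32) ≤ c * Real.sqrt N / (8 * k N * g N) := by
      rw [le_div_iff₀ (by positivity), hsN]
      have e3 : (8 * k N * g N) ≤ c * (N : ℝ) ^ ((1 : ℝ) / 32) / 6 := by linarith
      calc 6 * (N : ℝ) ^ ((1 : ℝ) / 2 - 1 / 32) * (8 * k N * g N)
          ≤ 6 * (N : ℝ) ^ ((1 : ℝ) / 2 - 1 / 32) * (c * (N : ℝ) ^ ((1 : ℝ) / 32) / 6) :=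
            mul_le_mul_of_nonneg_left e3 (by positivity)
        _ = c * ((N : ℝ) ^ ((1 : ℝ) / 2 - 1 / 32) * (N : ℝ) ^ ((1 : ℝ) / 32)) := by ring
        _ = c * (N : ℝ) ^ ((1 : ℝ) / 2) := by
            rw [← Real.rpow_add hN0]
            norm_num
    calc 1 * (N : ℝ) ^ ((1 : ℝ) / 4)
        ≤ 6 * (N : ℝ) ^ ((1 : ℝ) / 2 - 1 / 32) * (N : ℝ) ^ (-((1 : ℝ) / 8)) := by
          rw [mul_assoc, ← Real.rpow_add hN0]
          have e4 : (N : ℝ) ^ ((1 : ℝ) / 4) ≤ (N : ℝ) ^ ((1 : ℝ) / 2 - 1 / 32 + -((1 : ℝ) / 8)) :=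
            Real.rpow_le_rpow_of_exponent_le hN1 (by norm_num)
          have e5 : 0 ≤ (N : ℝ) ^ ((1 : ℝ) / 4) := by positivity
          linarith
      _ ≤ c * Real.sqrt N / (8 * k N * g N) * (1 / ((h N : ℝ) + 1)) ^ (2 * k N) :=
          mul_le_mul e2 e1 (by positivity) (by positivity)
  -- Borel and Cantelli
  obtain ⟨N0, hN0⟩ := eventually_atTop.1 key
  set S : ℕ → Set Ω := fun N =>
    {ω | ∀ n ≤ 4 * (N + N0), rep (shift (fun a => ε a ω) A) n < k (N + N0)} with hS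
  have hsum := (summable_nat_add_iff N0).2 (summable_exp (show (0 : ℝ) < 1 by norm_num)
    (show (0 : ℝ) < 1 / 4 by norm_num))
  have hle : ∀ N, μ.real (S N) ≤ Real.exp (-(1 * ((N + N0 : ℕ) : ℝ) ^ ((1 : ℝ) / 4))) :=
    fun N => hN0 (N + N0) (by omega)
  have hsum2 : Summable fun N => μ.real (S N) :=
    Summable.of_nonneg_of_le (fun _ => measureReal_nonneg) hle hsum
  have hfin : ∑' N, μ (S N) ≠ ⊤ := by
    have h1 : ∀ N, μ (S N) = ENNReal.ofReal (μ.real (S N)) := fun N =>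
      (ENNReal.ofReal_toReal (measure_ne_top _ _)).symm
    simp_rw [h1]
    exact hsum2.tsum_ofReal_ne_top
  filter_upwards [ae_eventually_notMem hfin] with ω hω
  obtain ⟨N1, hN1⟩ := eventually_atTop.1 hω
  filter_upwards [eventually_ge_atTop (N1 + N0)] with N hN
  have h4 := hN1 (N - N0) (by omega)
  have h5 : N - N0 + N0 = N := by omega
  simp only [hS, Set.mem_ofPred_eq, h5] at h4
  push Not at h4
  exact h4

end Pool.Agent.E8helper84.SM
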