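import Pool.Agent.E8helper84.SM.SM1

/-!
# Probability
-/

set_option autoImplicit false

namespace Pool.Agent.E8helper84.SM

open Finset MeasureTheory ProbabilityTheory

universe u

variable {Ω : Type u} [MeasurableSpace Ω] {μ : Measure Ω} [IsProbabilityMeasure μ]

theorem prob_all {ε : ℕ → Ω → ℕ} (hε : ∀ a, Measurable (ε a)) (hi : iIndepFun ε μ) (j : ℕ → ℕ)
    (D : Finset ℕ) : μ.real {ω | ∀ a ∈ D, ε a ω = j a} = ∏ a ∈ D, μ.real {ω | ε a ω = j a} := by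
  have h1 := hi.measure_inter_preimage_eq_mul (S := D) (sets := fun a => {j a})
    (fun _ _ => MeasurableSet.singleton _)
  have h2 : {ω | ∀ a ∈ D, ε a ω = j a} = ⋂ a ∈ D, ε a ⁻¹' {j a} := by
    ext ω
    simp
  unfold Measure.real
  rw [h2, h1, ENNReal.toReal_prod]
  rfl

theorem prob_none {ε : ℕ → Ω → ℕ} (hε : ∀ a, Measurable (ε a)) (hi : iIndepFun ε μ)
    (j : Finset ℕ → ℕ → ℕ) {π : ℝ} (h0 : 0 ≤ π) (h1 : π ≤ 1) (K : ℕ) :
    ∀ S : Finset (Finset ℕ), (S : Set (Finset ℕ)).PairwiseDisjoint id → (∀ D ∈ S, D.card ≤ K) →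
      (∀ D ∈ S, ∀ a ∈ D, π ≤ μ.real {ω | ε a ω = j D a}) →
      μ.real {ω | ∀ D ∈ S, ∃ a ∈ D, ε a ω ≠ j D a} ≤ Real.exp (-(S.card * π ^ K)) := by
  classical
  intro S
  induction S using Finset.induction_on with
  | empty =>
    intro _ _ _
    simp
  | insert D S hDS ih =>
    intro hd hc hp
    rw [coe_insert, Set.pairwiseDisjoint_insert] at hd
    have ih' := ih hd.1 (fun E hE => hc E (mem_insert_of_mem hE))
      (fun E hE => hp E (mem_insert_of_mem hE))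
    set U := S.biUnion id with hU
    have hUD : Disjoint U D := by
      rw [Finset.disjoint_left]
      intro a ha hD
      obtain ⟨E, hE, haE⟩ := mem_biUnion.1 ha
      have h2 := hd.2 E hE (fun h => hDS (h ▸ hE))
      exact (Finset.disjoint_left.1 h2) hD haE
    have hind := hi.indepFun_finset U D hUD hε
    have hsub : ∀ E ∈ S, ∀ a ∈ E, a ∈ U := fun E hE a ha => mem_biUnion.2 ⟨E, hE, ha⟩
    have e1 : {ω | ∀ E ∈ insert D S, ∃ a ∈ E, ε a ω ≠ j E a} =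
        ((fun ω (i : U) => ε i ω) ⁻¹' {x : U → ℕ | ∀ E (hE : E ∈ S), ∃ a, ∃ ha : a ∈ E,
          x ⟨a, hsub E hE a ha⟩ ≠ j E a}) ∩
        ((fun ω (i : D) => ε i ω) ⁻¹' {x : D → ℕ | ∃ a : D, x a ≠ j D a}) := by
      ext ω
      simp only [mem_insert, forall_eq_or_imp, Set.mem_ofPred_eq, Set.mem_inter_iff,
        Set.mem_preimage, Subtype.exists, exists_prop]
      tauto
    have e2 : {ω | ∀ E ∈ S, ∃ a ∈ E, ε a ω ≠ j E a} =
        (fun ω (i : U) => ε i ω) ⁻¹' {x : U → ℕ | ∀ E (hE : E ∈ S), ∃ a, ∃ ha : a ∈ E,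
          x ⟨a, hsub E hE a ha⟩ ≠ j E a} := by
      ext ω
      simp only [Set.mem_ofPred_eq, Set.mem_preimage, exists_prop]
    have e3 : ((fun ω (i : D) => ε i ω) ⁻¹' {x : D → ℕ | ∃ a : D, x a ≠ j D a}) =
        {ω | ∀ a ∈ D, ε a ω = j D a}ᶜ := by
      ext ω
      simp
    have m1 : MeasurableSet {x : U → ℕ | ∀ E (hE : E ∈ S), ∃ a, ∃ ha : a ∈ E,
          x ⟨a, hsub E hE a ha⟩ ≠ j E a} := (Set.to_countable _).measurableSet
    have m2 : MeasurableSet {x : D → ℕ | ∃ a : D, x a ≠ j D a} :=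
      (Set.to_countable _).measurableSet
    have e4 := hind.measure_inter_preimage_eq_mul _ _ m1 m2
    have m3 : MeasurableSet {ω | ∀ a ∈ D, ε a ω = j D a} := by
      have h2 : {ω | ∀ a ∈ D, ε a ω = j D a} = ⋂ a ∈ D, ε a ⁻¹' {j D a} := by
        ext ω
        simp
      rw [h2]
      exact Finset.measurableSet_biInter _ fun a _ => hε a (MeasurableSet.singleton _)
    have e5 : μ.real {ω | ∀ a ∈ D, ε a ω = j D a}ᶜ ≤ Real.exp (-π ^ K) := by
      rw [probReal_compl_eq_one_sub m3, prob_all hε hi]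
      have h2 : π ^ K ≤ ∏ a ∈ D, μ.real {ω | ε a ω = j D a} := by
        calc π ^ K ≤ π ^ D.card :=
              pow_le_pow_of_le_one h0 h1 (hc D (mem_insert_self _ _))
          _ = ∏ _a ∈ D, π := (Finset.prod_const π).symm
          _ ≤ _ := Finset.prod_le_prod (fun _ _ => h0) (fun a ha => hp D (mem_insert_self _ _) a ha)
      have h3 := Real.add_one_le_exp (-π ^ K)
      linarith
    have e6 : μ.real {ω | ∀ E ∈ insert D S, ∃ a ∈ E, ε a ω ≠ j E a} =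
        μ.real {ω | ∀ E ∈ S, ∃ a ∈ E, ε a ω ≠ j E a} *
          μ.real {ω | ∀ a ∈ D, ε a ω = j D a}ᶜ := by
      unfold Measure.real
      rw [e1, e4, ENNReal.toReal_mul, e2, e3]
    rw [e6, card_insert_of_notMem hDS]
    calc μ.real {ω | ∀ E ∈ S, ∃ a ∈ E, ε a ω ≠ j E a} *
          μ.real {ω | ∀ a ∈ D, ε a ω = j D a}ᶜ
        ≤ Real.exp (-(S.card * π ^ K)) * Real.exp (-π ^ K) :=
          mul_le_mul ih' e5 measureReal_nonneg (Real.exp_pos _).le
      _ = Real.exp (-(((S.card + 1 : ℕ) : ℝ) * π ^ K)) := by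
          rw [← Real.exp_add]
          congr 1
          push_cast
          ring

/-- **Finite form.** -/
theorem finite_form {ε : ℕ → Ω → ℕ} (hε : ∀ a, Measurable (ε a)) (hi : iIndepFun ε μ)
    {A : Set ℕ} {B : Finset ℕ} (hBA : (B : Set ℕ) ⊆ A) {N ℓ k : ℕ} (hk : 1 ≤ k)
    (hB : ∀ b ∈ B, b ≤ N) (hℓ : 1 ≤ ℓ) (hℓN : ℓ ≤ N) (h : 192 * k ^ 2 * N ≤ B.card ^ 2 * ℓ)
    {π : ℝ} (h0 : 0 ≤ π) (hp : ∀ b ∈ B, ∀ i < 2 * ℓ, π ≤ μ.real {ω | ε b ω = i}) :
    μ.real {ω | ∀ n ≤ 4 * N, rep (shift (fun a => ε a ω) A) n < k} ≤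
      Real.exp (-(B.card / (4 * k) * π ^ (2 * k))) := by
  obtain ⟨S, j, hS, hSd, hSc⟩ := exists_family hk hB hℓ hℓN h
  have hk0 : (0 : ℝ) < k := by exact_mod_cast hk
  have hBne : B.Nonempty := by
    rw [← Finset.card_pos]
    by_contra hcon
    have h2 : B.card = 0 := by omega
    rw [h2] at h
    have h3 : 1 ≤ k ^ 2 := Nat.one_le_pow _ _ hk
    have h4 : 192 * 1 * N ≤ 192 * k ^ 2 * N := Nat.mul_le_mul_right _ (Nat.mul_le_mul_left _ h3)
    omega
  have hπ1 : π ≤ 1 := by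
    obtain ⟨b, hb⟩ := hBne
    exact (hp b hb 0 (by omega)).trans measureReal_le_one
  have h1 := prob_none hε hi j h0 hπ1 (2 * k) S hSd (fun D hD => (hS D hD).2.1)
    (fun D hD a ha => hp a ((hS D hD).1 ha) _ ((hS D hD).2.2.1 a))
  have h2 : {ω | ∀ n ≤ 4 * N, rep (shift (fun a => ε a ω) A) n < k} ⊆
      {ω | ∀ D ∈ S, ∃ a ∈ D, ε a ω ≠ j D a} := by
    intro ω hω D hD
    by_contra hcon
    push Not at hcon
    obtain ⟨hDB, -, -, n, hnN, hn⟩ := hS D hD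
    have h3 := hn (shift (fun a => ε a ω) A) (fun a ha => by
      refine ⟨a, hBA (hDB ha), ?_⟩
      simp only
      rw [hcon a ha])
    have h4 := hω n hnN
    omega
  refine (measureReal_mono h2).trans (h1.trans ?_)
  rw [Real.exp_le_exp, neg_le_neg_iff]
  refine mul_le_mul_of_nonneg_right ?_ (by positivity)
  rw [div_le_iff₀ (by positivity)]
  have h5 : (B.card : ℝ) ≤ ((4 * k * S.card : ℕ) : ℝ) := by exact_mod_cast hSc
  push_cast at h5
  linarith

end Pool.Agent.E8helper84.SM
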