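import Pool.Agent.E8helper84.SM.SM2

/-!
# Almost sure form
-/

set_option autoImplicit false

namespace Pool.Agent.E8helper84.SM

open Finset MeasureTheory ProbabilityTheory Filter

universe u

variable {Ω : Type u} [MeasurableSpace Ω] {μ : Measure Ω} [IsProbabilityMeasure μ]

theorem range_le {e : Ω → ℕ} (h : Measurable e) {M : ℕ} {p : ℝ}
    (hp : ∀ i < M, p ≤ μ.real {ω | e ω = i}) : M * p ≤ 1 := by
  have h1 : μ.real (⋃ i ∈ range M, {ω | e ω = i}) = ∑ i ∈ range M, μ.real {ω | e ω = i} := by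
    refine measureReal_biUnion_finset ?_ ?_
    · intro i _ j _ hij
      rw [Function.onFun, Set.disjoint_left]
      intro ω h2 h3
      exact hij ((Eq.symm h2).trans h3)
    · intro i _
      exact h (MeasurableSet.singleton i)
  calc (M : ℝ) * p = ∑ _i ∈ range M, p := by simp
    _ ≤ ∑ i ∈ range M, μ.real {ω | e ω = i} :=
        Finset.sum_le_sum fun i hi => hp i (mem_range.1 hi)
    _ = μ.real (⋃ i ∈ range M, {ω | e ω = i}) := h1.symm
    _ ≤ 1 := measureReal_le_one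

open Classical in
/-- the elements of `A` in `[x, N]` -/
noncomputable def seg (A : Set ℕ) (x : ℝ) (N : ℕ) : Finset ℕ :=
  (Icc 1 N).filter (fun a => a ∈ A ∧ x ≤ a)

theorem mem_seg {A : Set ℕ} {x : ℝ} {N a : ℕ} :
    a ∈ seg A x N ↔ (1 ≤ a ∧ a ≤ N) ∧ a ∈ A ∧ x ≤ a := by
  classical
  simp only [seg, mem_filter, mem_Icc]

theorem count_le_seg (A : Set ℕ) {x : ℝ} (hx : 0 ≤ x) (N : ℕ) :
    count A N ≤ (seg A x N).card + x := by
  classical
  have h1 : A ∩ Set.Icc 1 N ⊆ ((seg A x N ∪ Icc 1 ⌊x⌋₊ : Finset ℕ) : Set ℕ) := by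
    rintro a ⟨h2, h3⟩
    rw [Set.mem_Icc] at h3
    simp only [seg, coe_union, coe_filter, mem_Icc, coe_Icc, Set.mem_union, Set.mem_ofPred_eq,
      Set.mem_Icc]
    by_cases h4 : x ≤ a
    · exact Or.inl ⟨h3, h2, h4⟩
    · right
      refine ⟨h3.1, Nat.le_floor ?_⟩
      push Not at h4
      exact h4.le
  have h2 := Set.ncard_le_ncard h1 (Finset.finite_toSet _)
  rw [Set.ncard_coe_finset] at h2
  have h3 := card_union_le (seg A x N) (Icc 1 ⌊x⌋₊)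
  rw [Nat.card_Icc] at h3
  have h4 : (⌊x⌋₊ : ℝ) ≤ x := Nat.floor_le hx
  have h5 : (A ∩ Set.Icc 1 N).ncard ≤ (seg A x N).card + ⌊x⌋₊ := by omega
  unfold count
  have h6 : ((A ∩ Set.Icc 1 N).ncard : ℝ) ≤ ((seg A x N).card : ℝ) + (⌊x⌋₊ : ℝ) := by
    exact_mod_cast h5
  linarith

theorem tendsto_rpow_nat {δ : ℝ} (hδ : 0 < δ) :
    Tendsto (fun N : ℕ => (N : ℝ) ^ δ) atTop atTop :=
  (tendsto_rpow_atTop hδ).comp tendsto_natCast_atTop_atTop

/-- what is needed of the perturbation: the `ε a` are independent, and for every `δ > 0` and large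
`N` each `a ∈ [N ^ τ, N]` is moved to `a + i` with probability at least `N ^ (-δ)` for all
`i < H N` -/
def Perturbs (μ : Measure Ω) (ε : ℕ → Ω → ℕ) (τ : ℝ) (H : ℕ → ℕ) : Prop :=
  (∀ a, Measurable (ε a)) ∧ iIndepFun ε μ ∧
    ∀ δ : ℝ, 0 < δ → ∀ᶠ N : ℕ in atTop, ∀ a : ℕ, (N : ℝ) ^ τ ≤ a → a ≤ N →
      ∀ i < H N, (N : ℝ) ^ (-δ) ≤ μ.real {ω | ε a ω = i}

/-- the bound for the probability at a single scale -/
theorem core {ε : ℕ → Ω → ℕ} {H : ℕ → ℕ} {τ : ℝ} (hτ0 : 0 ≤ τ) (hτ : τ < 1 / 2)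
    (hP : Perturbs μ ε τ H) (hH : ∀ᶠ N in atTop, 2 ≤ H N)
    {g : ℕ → ℝ} (hg : ∀ C : ℝ, ∀ᶠ N : ℕ in atTop, C * g N ^ 2 ≤ H N)
    {c : ℝ} (hc : 0 < c) {k : ℕ} (hk1 : 1 ≤ k) {κ : ℝ} (hκ : 0 < κ) :
    ∀ᶠ N : ℕ in atTop, ∀ A : Set ℕ, c * Real.sqrt N ≤ g N * count A N →
      μ.real {ω | ∀ n ≤ 4 * N, rep (shift (fun a => ε a ω) A) n < k} ≤
        Real.exp (-(c / (8 * k) * (N : ℝ) ^ (1 / 2 - κ))) := by
  obtain ⟨hε, hi, hp⟩ := hP
  have hk0 : (0 : ℝ) < k := by exact_mod_cast hk1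
  set κ' : ℝ := min κ (1 / 2 - τ) with hκ'
  have hκ'0 : 0 < κ' := lt_min hκ (by linarith)
  have hκ'1 : κ' ≤ κ := min_le_left _ _
  have hκ'2 : κ' ≤ 1 / 2 - τ := min_le_right _ _
  set δ : ℝ := κ' / (4 * k + 2) with hδ
  have hδ0 : 0 < δ := div_pos hκ'0 (by positivity)
  have hδ1 : δ * (4 * k + 2) = κ' := by
    rw [hδ, div_mul_cancel₀]
    positivity
  have hδ2 : δ / 2 + 2 * k * δ ≤ κ := by
    have h2 : δ / 2 + 2 * k * δ = (δ * (4 * k + 2) - δ) / 2 := by ring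
    rw [h2, hδ1]
    linarith
  have hkδ : 0 < k * δ := by positivity
  have hδ3 : 0 < 1 / 2 - τ - δ / 2 := by
    have h2 : δ * (4 * k + 2) = 4 * (k * δ) + 2 * δ := by ring
    linarith
  have hδ4 : δ ≤ 1 := by
    have h2 : δ * (4 * k + 2) = 4 * (k * δ) + 2 * δ := by ring
    linarith
  have hlim1 : ∀ᶠ N : ℕ in atTop, 2 / c ≤ (N : ℝ) ^ (1 / 2 - τ - δ / 2) :=
    (tendsto_rpow_nat hδ3).eventually_ge_atTop _
  filter_upwards [hp δ hδ0, hH, hg (2304 * k ^ 2 / c ^ 2), hg 1, hlim1, eventually_ge_atTop 1] with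
    N hN2 hN3 hN4 hN5 hN6 hN8 A hN1
  have hNR : (1 : ℝ) ≤ N := by exact_mod_cast hN8
  have hNp : (0 : ℝ) < N := by linarith
  -- the range is small
  have hHN : (H N : ℝ) ≤ (N : ℝ) ^ δ := by
    have h1 := range_le (hε N) (hN2 N (by
      calc (N : ℝ) ^ τ ≤ (N : ℝ) ^ (1 : ℝ) :=
            Real.rpow_le_rpow_of_exponent_le hNR (by linarith)
        _ = N := Real.rpow_one _) le_rfl)
    rw [Real.rpow_neg hNp.le] at h1
    have h2 : 0 < (N : ℝ) ^ δ := Real.rpow_pos_of_pos hNp _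
    rw [← div_eq_mul_inv, div_le_one h2] at h1
    exact h1
  have hgpos : 0 < g N := by
    by_contra hcon
    push Not at hcon
    have h1 : g N * count A N ≤ 0 :=
      mul_nonpos_of_nonpos_of_nonneg hcon (by unfold count; positivity)
    have h2 : 0 < c * Real.sqrt N := mul_pos hc (Real.sqrt_pos.2 hNp)
    linarith
  have hgle : g N ≤ (N : ℝ) ^ (δ / 2) := by
    have h1 : g N ^ 2 ≤ ((N : ℝ) ^ (δ / 2)) ^ 2 := by
      rw [← Real.rpow_natCast ((N : ℝ) ^ (δ / 2)) 2, ← Real.rpow_mul hNp.le]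
      have h2 : δ / 2 * ((2 : ℕ) : ℝ) = δ := by push_cast; ring
      rw [h2]
      linarith
    exact (pow_le_pow_iff_left₀ hgpos.le (Real.rpow_nonneg hNp.le _) (by norm_num)).1 h1
  -- the set `B`
  set x : ℝ := (N : ℝ) ^ τ with hx
  have hx0 : 0 ≤ x := Real.rpow_nonneg hNp.le _
  set B := seg A x N with hB
  have hBmem : ∀ b ∈ B, b ∈ A ∧ x ≤ b ∧ b ≤ N := by
    intro b hb
    rw [hB, mem_seg] at hb
    exact ⟨hb.2.1, hb.2.2, hb.1.2⟩
  have hcnt := count_le_seg A hx0 N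
  rw [← hB] at hcnt
  have hsq : Real.sqrt N = (N : ℝ) ^ ((1 : ℝ) / 2) := Real.sqrt_eq_rpow _
  have hxle : x * (2 * g N) ≤ c * Real.sqrt N := by
    have h1 : x * g N ≤ (N : ℝ) ^ (τ + δ / 2) := by
      rw [Real.rpow_add hNp]
      exact mul_le_mul_of_nonneg_left hgle hx0
    have h2 : 2 * (N : ℝ) ^ (τ + δ / 2) ≤ c * Real.sqrt N := by
      have h3 : Real.sqrt N = (N : ℝ) ^ (1 / 2 - τ - δ / 2) * (N : ℝ) ^ (τ + δ / 2) := by
        rw [hsq, ← Real.rpow_add hNp]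
        congr 1
        ring
      rw [h3, ← mul_assoc]
      refine mul_le_mul_of_nonneg_right ?_ (Real.rpow_nonneg hNp.le _)
      rw [div_le_iff₀ hc] at hN6
      linarith
    linarith
  have hBc : c * Real.sqrt N ≤ 2 * g N * B.card := by
    have h1 : g N * count A N ≤ g N * (B.card + x) := mul_le_mul_of_nonneg_left hcnt hgpos.le
    have h2 : g N * (B.card + x) = g N * B.card + g N * x := by ring
    have h3 : x * (2 * g N) = 2 * (g N * x) := by ring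
    linarith
  set ℓ := H N / 2 with hℓ
  have hℓ1 : 1 ≤ ℓ := by omega
  have hℓ3 : H N ≤ 3 * ℓ := by omega
  have hℓN : ℓ ≤ N := by
    have h1 : (H N : ℝ) ≤ N := by
      calc (H N : ℝ) ≤ (N : ℝ) ^ δ := hHN
        _ ≤ (N : ℝ) ^ (1 : ℝ) := Real.rpow_le_rpow_of_exponent_le hNR hδ4
        _ = N := Real.rpow_one _
    have h2 : H N ≤ N := by exact_mod_cast h1
    omega
  have hcond : 192 * k ^ 2 * N ≤ B.card ^ 2 * ℓ := by
    have h1 : (c * Real.sqrt N) ^ 2 ≤ (2 * g N * B.card) ^ 2 :=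
      pow_le_pow_left₀ (by positivity) hBc 2
    rw [mul_pow, Real.sq_sqrt hNp.le] at h1
    have h2 : (H N : ℝ) ≤ 3 * ℓ := by exact_mod_cast hℓ3
    have h3 : 2304 * (k : ℝ) ^ 2 * g N ^ 2 ≤ c ^ 2 * H N := by
      have h4 : 2304 * (k : ℝ) ^ 2 / c ^ 2 * g N ^ 2 = 2304 * (k : ℝ) ^ 2 * g N ^ 2 / c ^ 2 := by
        ring
      rw [h4, div_le_iff₀ (by positivity)] at hN4
      linarith
    have h5 : (192 * (k : ℝ) ^ 2 * N) * (12 * g N ^ 2) ≤ (B.card ^ 2 * ℓ) * (12 * g N ^ 2) := by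
      calc (192 * (k : ℝ) ^ 2 * N) * (12 * g N ^ 2) = (2304 * (k : ℝ) ^ 2 * g N ^ 2) * N := by ring
        _ ≤ (c ^ 2 * H N) * N := mul_le_mul_of_nonneg_right h3 hNp.le
        _ = (c ^ 2 * N) * H N := by ring
        _ ≤ (2 * g N * B.card) ^ 2 * H N := mul_le_mul_of_nonneg_right h1 (Nat.cast_nonneg _)
        _ ≤ (2 * g N * B.card) ^ 2 * (3 * ℓ) := mul_le_mul_of_nonneg_left h2 (sq_nonneg _)
        _ = (B.card ^ 2 * ℓ) * (12 * g N ^ 2) := by ring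
    have h6 := le_of_mul_le_mul_right h5 (by positivity)
    exact_mod_cast h6
  have hfin := finite_form hε hi (A := A) (B := B) (fun b hb => (hBmem b hb).1) hk1
    (fun b hb => (hBmem b hb).2.2) hℓ1 hℓN hcond (Real.rpow_nonneg hNp.le (-δ))
    (fun b hb i hi' => hN2 b (hBmem b hb).2.1 (hBmem b hb).2.2 i (by omega))
  have hexp : (c / (8 * k)) * (N : ℝ) ^ (1 / 2 - κ) ≤
      B.card / (4 * k) * ((N : ℝ) ^ (-δ)) ^ (2 * k) := by
    have h1 : ((N : ℝ) ^ (-δ)) ^ (2 * k) = (N : ℝ) ^ (-(2 * k * δ)) := by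
      rw [← Real.rpow_natCast, ← Real.rpow_mul hNp.le]
      congr 1
      push_cast
      ring
    have h2 : c / 2 * (N : ℝ) ^ (1 / 2 - δ / 2) ≤ B.card := by
      have h3 : (N : ℝ) ^ ((1 : ℝ) / 2) = (N : ℝ) ^ (1 / 2 - δ / 2) * (N : ℝ) ^ (δ / 2) := by
        rw [← Real.rpow_add hNp]
        congr 1
        ring
      have h4 : c * ((N : ℝ) ^ (1 / 2 - δ / 2) * (N : ℝ) ^ (δ / 2)) ≤
          2 * (N : ℝ) ^ (δ / 2) * B.card := by
        rw [← h3, ← hsq]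
        refine hBc.trans ?_
        exact mul_le_mul_of_nonneg_right (mul_le_mul_of_nonneg_left hgle (by norm_num))
          (Nat.cast_nonneg _)
      have h5 : 0 < (N : ℝ) ^ (δ / 2) := Real.rpow_pos_of_pos hNp _
      have h6 : (c / 2 * (N : ℝ) ^ (1 / 2 - δ / 2)) * (N : ℝ) ^ (δ / 2) ≤
          B.card * (N : ℝ) ^ (δ / 2) := by linarith
      exact le_of_mul_le_mul_right h6 h5
    rw [h1]
    calc (c / (8 * k)) * (N : ℝ) ^ (1 / 2 - κ)
        ≤ (c / (8 * k)) * (N : ℝ) ^ (1 / 2 - δ / 2 - 2 * k * δ) :=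
          mul_le_mul_of_nonneg_left (Real.rpow_le_rpow_of_exponent_le hNR (by linarith))
            (by positivity)
      _ = (c / 2 * (N : ℝ) ^ (1 / 2 - δ / 2)) / (4 * k) * (N : ℝ) ^ (-(2 * k * δ)) := by
          rw [sub_eq_add_neg (1 / 2 - δ / 2), Real.rpow_add hNp]
          field_simp
          norm_num
      _ ≤ B.card / (4 * k) * (N : ℝ) ^ (-(2 * k * δ)) := by
          refine mul_le_mul_of_nonneg_right ?_ (Real.rpow_nonneg hNp.le _)
          exact div_le_div_of_nonneg_right h2 (by positivity)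
  exact hfin.trans (Real.exp_le_exp.2 (neg_le_neg hexp))

theorem summable_exp {b s : ℝ} (hb : 0 < b) (hs : 0 < s) :
    Summable fun N : ℕ => Real.exp (-(b * (N : ℝ) ^ s)) := by
  have h1 := (isLittleO_exp_neg_mul_rpow_atTop hb (-(2 / s))).comp_tendsto (tendsto_rpow_nat hs)
  have h2 : Summable fun N : ℕ => ((N : ℝ) ^ s) ^ (-(2 / s)) := by
    have h3 : (fun N : ℕ => ((N : ℝ) ^ s) ^ (-(2 / s))) = fun N : ℕ => (N : ℝ) ^ (-2 : ℝ) := by
      funext N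
      rw [← Real.rpow_mul (Nat.cast_nonneg N)]
      congr 1
      field_simp
    rw [h3]
    exact Real.summable_nat_rpow.2 (by norm_num)
  have h4 := summable_of_isBigO_nat h2 h1.isBigO
  refine h4.congr fun N => ?_
  simp only [Function.comp_apply, neg_mul]

/-- **Almost sure form, for large families of sets.** -/
theorem ae_family {ε : ℕ → Ω → ℕ} {H : ℕ → ℕ} {τ : ℝ} (hτ0 : 0 ≤ τ) (hτ : τ < 1 / 2)
    (hP : Perturbs μ ε τ H) (hH : ∀ᶠ N in atTop, 2 ≤ H N)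
    {g : ℕ → ℝ} (hg : ∀ C : ℝ, ∀ᶠ N : ℕ in atTop, C * g N ^ 2 ≤ H N)
    {c : ℝ} (hc : 0 < c) {κ : ℝ} (hκ : 0 < κ) (F : ℕ → Finset (Set ℕ))
    (hF : ∀ᶠ N : ℕ in atTop, ((F N).card : ℝ) ≤ Real.exp ((N : ℝ) ^ (1 / 2 - κ))) :
    ∀ᵐ ω ∂μ, ∀ k, ∀ᶠ N : ℕ in atTop, ∀ A ∈ F N, c * Real.sqrt N ≤ g N * count A N →
      ∃ n ≤ 4 * N, k ≤ rep (shift (fun a => ε a ω) A) n := by
  classical
  rw [ae_all_iff]
  intro k0
  set k := k0 + 1 with hk
  have hk1 : 1 ≤ k := by omega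
  have hk0 : (0 : ℝ) < k := by exact_mod_cast hk1
  set κ' : ℝ := min κ (1 / 4) with hκ'
  have hκ'0 : 0 < κ' := lt_min hκ (by norm_num)
  have hκ'1 : κ' ≤ κ := min_le_left _ _
  have hκ'2 : κ' ≤ 1 / 4 := min_le_right _ _
  set b : ℝ := c / (8 * k) with hb
  have hb0 : 0 < b := by positivity
  -- the exponent `N ^ (1/2 - κ) - b N ^ (1/2 - κ' / 2)` is small
  have hlim : ∀ᶠ N : ℕ in atTop, 2 / b ≤ (N : ℝ) ^ (κ' / 2) :=
    (tendsto_rpow_nat (by positivity)).eventually_ge_atTop _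
  obtain ⟨N0, hN0⟩ := eventually_atTop.1 ((core hτ0 hτ hP hH hg hc hk1
    (show 0 < κ' / 2 by positivity)).and (hF.and (hlim.and (eventually_ge_atTop 1))))
  set S : ℕ → Set Ω := fun N => {ω | ∃ A ∈ F (N + N0), c * Real.sqrt ((N + N0 : ℕ) : ℝ) ≤
    g (N + N0) * count A (N + N0) ∧
      ∀ n ≤ 4 * (N + N0), rep (shift (fun a => ε a ω) A) n < k} with hS
  have hs0 : 0 < 1 / 2 - κ' / 2 := by linarith
  have hsum := (summable_nat_add_iff N0).2 (summable_exp (show 0 < b / 2 by positivity) hs0)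
  have hle : ∀ N, μ.real (S N) ≤
      Real.exp (-(b / 2 * ((N + N0 : ℕ) : ℝ) ^ (1 / 2 - κ' / 2))) := by
    intro N
    obtain ⟨h1, h2, h3, h4⟩ := hN0 (N + N0) (by omega)
    set M := N + N0 with hM
    have hM1 : (1 : ℝ) ≤ M := by exact_mod_cast h4
    have hM0 : (0 : ℝ) < M := by linarith
    have hsub : S N ⊆ ⋃ A ∈ (F M).filter (fun A => c * Real.sqrt (M : ℝ) ≤ g M * count A M),
        {ω | ∀ n ≤ 4 * M, rep (shift (fun a => ε a ω) A) n < k} := by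
      rintro ω ⟨A, hA1, hA2, hA3⟩
      simp only [Set.mem_iUnion, exists_prop]
      exact ⟨A, mem_filter.2 ⟨hA1, hA2⟩, hA3⟩
    have e1 : μ.real (S N) ≤ (F M).card * Real.exp (-(b * (M : ℝ) ^ (1 / 2 - κ' / 2))) := by
      refine (measureReal_mono hsub (measure_ne_top _ _)).trans
        ((measureReal_biUnion_finset_le _ _).trans ?_)
      refine (Finset.sum_le_card_nsmul _ _ (Real.exp (-(b * (M : ℝ) ^ (1 / 2 - κ' / 2))))
        fun A hA => h1 A (mem_filter.1 hA).2).trans ?_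
      rw [nsmul_eq_mul]
      refine mul_le_mul_of_nonneg_right ?_ (Real.exp_pos _).le
      exact_mod_cast card_le_card (filter_subset _ _)
    refine e1.trans ?_
    calc ((F M).card : ℝ) * Real.exp (-(b * (M : ℝ) ^ (1 / 2 - κ' / 2)))
        ≤ Real.exp ((M : ℝ) ^ (1 / 2 - κ)) * Real.exp (-(b * (M : ℝ) ^ (1 / 2 - κ' / 2))) :=
          mul_le_mul_of_nonneg_right h2 (Real.exp_pos _).le
      _ = Real.exp ((M : ℝ) ^ (1 / 2 - κ) - b * (M : ℝ) ^ (1 / 2 - κ' / 2)) := by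
          rw [← Real.exp_add, ← sub_eq_add_neg]
      _ ≤ Real.exp (-(b / 2 * (M : ℝ) ^ (1 / 2 - κ' / 2))) := by
          rw [Real.exp_le_exp]
          have e2 : (M : ℝ) ^ (1 / 2 - κ) ≤ (M : ℝ) ^ (1 / 2 - κ') :=
            Real.rpow_le_rpow_of_exponent_le hM1 (by linarith)
          have e3 : (M : ℝ) ^ (1 / 2 - κ' / 2) = (M : ℝ) ^ (κ' / 2) * (M : ℝ) ^ (1 / 2 - κ') := by
            rw [← Real.rpow_add hM0]
            congr 1
            ring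
          have e4 : 0 < (M : ℝ) ^ (1 / 2 - κ') := Real.rpow_pos_of_pos hM0 _
          have e5 : 1 ≤ b / 2 * (M : ℝ) ^ (κ' / 2) := by
            rw [div_le_iff₀ hb0] at h3
            linarith
          have e6 : (M : ℝ) ^ (1 / 2 - κ') ≤ b / 2 * (M : ℝ) ^ (1 / 2 - κ' / 2) := by
            rw [e3, ← mul_assoc]
            calc (M : ℝ) ^ (1 / 2 - κ') = 1 * (M : ℝ) ^ (1 / 2 - κ') := (one_mul _).symm
              _ ≤ _ := mul_le_mul_of_nonneg_right e5 e4.le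
          linarith
  have hsum2 : Summable fun N => μ.real (S N) :=
    Summable.of_nonneg_of_le (fun _ => measureReal_nonneg) hle hsum
  have hfin : ∑' N, μ (S N) ≠ ⊤ := by
    have h1 : ∀ N, μ (S N) = ENNReal.ofReal (μ.real (S N)) := fun N =>
      (ENNReal.ofReal_toReal (measure_ne_top _ _)).symm
    simp_rw [h1]
    exact hsum2.tsum_ofReal_ne_top
  have h3 := ae_eventually_notMem hfin
  filter_upwards [h3] with ω hω
  obtain ⟨N1, hN1⟩ := eventually_atTop.1 hω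
  filter_upwards [eventually_ge_atTop (N1 + N0)] with N hN A hA hAc
  have h4 := hN1 (N - N0) (by omega)
  have h5 : N - N0 + N0 = N := by omega
  simp only [hS, Set.mem_ofPred_eq, h5] at h4
  by_contra hcon
  push Not at hcon
  exact h4 ⟨A, hA, hAc, fun n hn => by
    have := hcon n hn
    omega⟩

theorem count_inter (A : Set ℕ) (N : ℕ) : count (A ∩ Set.Icc 1 N) N = count A N := by
  unfold count
  rw [Set.inter_assoc, Set.inter_self]

theorem shift_mono {ε : ℕ → ℕ} {A B : Set ℕ} (h : A ⊆ B) : shift ε A ⊆ shift ε B :=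
  Set.image_mono h

/-- **Almost sure form, for classes of sets.** -/
theorem ae_class {ε : ℕ → Ω → ℕ} {H : ℕ → ℕ} {τ : ℝ} (hτ0 : 0 ≤ τ) (hτ : τ < 1 / 2)
    (hP : Perturbs μ ε τ H) (hH : ∀ᶠ N in atTop, 2 ≤ H N)
    {g : ℕ → ℝ} (hg : ∀ C : ℝ, ∀ᶠ N : ℕ in atTop, C * g N ^ 2 ≤ H N)
    {κ : ℝ} (hκ : 0 < κ) (𝒞 : Set (Set ℕ))
    (hC : ∀ᶠ N : ℕ in atTop, (((fun A : Set ℕ => A ∩ Set.Icc 1 N) '' 𝒞).ncard : ℝ) ≤
      Real.exp ((N : ℝ) ^ (1 / 2 - κ))) :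
    ∀ᵐ ω ∂μ, ∀ A ∈ 𝒞, ∀ c : ℝ, 0 < c →
      ((∃ᶠ N : ℕ in atTop, c * Real.sqrt N ≤ g N * count A N) →
        ∀ k, ∃ n, k ≤ rep (shift (fun a => ε a ω) A) n) ∧
      ((∀ᶠ N : ℕ in atTop, c * Real.sqrt N ≤ g N * count A N) →
        ∀ k, ∀ᶠ N : ℕ in atTop, ∃ n ≤ 4 * N, k ≤ rep (shift (fun a => ε a ω) A) n) := by
  classical
  have hfin : ∀ N : ℕ, ((fun A : Set ℕ => A ∩ Set.Icc 1 N) '' 𝒞).Finite := fun N =>
    ((Set.finite_Icc 1 N).finite_subsets).subset (by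
      rintro _ ⟨A, -, rfl⟩
      exact Set.inter_subset_right)
  set F : ℕ → Finset (Set ℕ) := fun N => (hfin N).toFinset with hF
  have hFc : ∀ᶠ N : ℕ in atTop, ((F N).card : ℝ) ≤ Real.exp ((N : ℝ) ^ (1 / 2 - κ)) := by
    filter_upwards [hC] with N hN
    rw [Set.ncard_eq_toFinset_card _ (hfin N)] at hN
    exact hN
  have h1 : ∀ᵐ ω ∂μ, ∀ m : ℕ, ∀ k, ∀ᶠ N : ℕ in atTop, ∀ A ∈ F N,
      (1 / ((m : ℝ) + 1)) * Real.sqrt N ≤ g N * count A N →
      ∃ n ≤ 4 * N, k ≤ rep (shift (fun a => ε a ω) A) n := by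
    rw [ae_all_iff]
    intro m
    exact ae_family hτ0 hτ hP hH hg (by positivity) hκ F hFc
  filter_upwards [h1] with ω hω A hA c hc
  obtain ⟨m, hm⟩ := exists_nat_one_div_lt hc
  have h2 : ∀ k, ∀ᶠ N : ℕ in atTop, c * Real.sqrt N ≤ g N * count A N →
      ∃ n ≤ 4 * N, k ≤ rep (shift (fun a => ε a ω) A) n := by
    intro k
    filter_upwards [hω m k] with N hN h3
    obtain ⟨n, hn1, hn2⟩ := hN (A ∩ Set.Icc 1 N) (by
      simp only [hF, Set.Finite.mem_toFinset]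
      exact ⟨A, hA, rfl⟩) (by
      rw [count_inter]
      refine le_trans ?_ h3
      exact mul_le_mul_of_nonneg_right hm.le (Real.sqrt_nonneg _))
    exact ⟨n, hn1, hn2.trans (rep_mono (shift_mono Set.inter_subset_left) n)⟩
  refine ⟨fun h3 k => ?_, fun h3 k => ?_⟩
  · obtain ⟨N, h4, h5⟩ := (h3.and_eventually (h2 k)).exists
    obtain ⟨n, -, hn⟩ := h5 h4
    exact ⟨n, hn⟩
  · filter_upwards [h3, h2 k] with N h4 h5
    exact h5 h4

end Pool.Agent.E8helper84.SM
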