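import Pool.Agent.E8helper84.SM.SM3

/-!
# Sharpness: sets which stay Sidon sets under all small perturbations
-/

set_option autoImplicit false

namespace Pool.Agent.E8helper84.SM

open Finset Filter

/-- the Erdős–Turán Sidon set -/
def et (p i : ℕ) : ℕ := 2 * p * i + i ^ 2 % p

theorem et_sidon {p : ℕ} (hp : p.Prime) (hp2 : 2 < p) {a b c d : ℕ} (ha : a < p) (hb : b < p)
    (hc : c < p) (hd : d < p) (h : et p a + et p b = et p c + et p d) :
    (a = c ∧ b = d) ∨ (a = d ∧ b = c) := by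
  have hp0 : 0 < p := hp.pos
  unfold et at h
  have ra := Nat.mod_lt (a ^ 2) hp0
  have rb := Nat.mod_lt (b ^ 2) hp0
  have rc := Nat.mod_lt (c ^ 2) hp0
  have rd := Nat.mod_lt (d ^ 2) hp0
  have hsum : a + b = c + d := by
    rcases lt_trichotomy (a + b) (c + d) with h1 | h1 | h1
    · exfalso
      have h2 : 2 * p * (a + b + 1) ≤ 2 * p * (c + d) := Nat.mul_le_mul_left _ h1
      have h3 : 2 * p * (a + b + 1) = 2 * p * a + 2 * p * b + 2 * p := by ring
      have h4 : 2 * p * (c + d) = 2 * p * c + 2 * p * d := by ring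
      omega
    · exact h1
    · exfalso
      have h2 : 2 * p * (c + d + 1) ≤ 2 * p * (a + b) := Nat.mul_le_mul_left _ h1
      have h3 : 2 * p * (c + d + 1) = 2 * p * c + 2 * p * d + 2 * p := by ring
      have h4 : 2 * p * (a + b) = 2 * p * a + 2 * p * b := by ring
      omega
  have hr : a ^ 2 % p + b ^ 2 % p = c ^ 2 % p + d ^ 2 % p := by
    have h3 : 2 * p * (a + b) = 2 * p * a + 2 * p * b := by ring
    have h4 : 2 * p * (c + d) = 2 * p * c + 2 * p * d := by ring
    rw [hsum] at h3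
    omega
  haveI : Fact p.Prime := ⟨hp⟩
  have hz : (a : ZMod p) ^ 2 + (b : ZMod p) ^ 2 = (c : ZMod p) ^ 2 + (d : ZMod p) ^ 2 := by
    have h1 := congrArg (fun n : ℕ => (n : ZMod p)) hr
    simp only [Nat.cast_add, ZMod.natCast_mod, Nat.cast_pow] at h1
    exact h1
  have hs : (a : ZMod p) + b = c + d := by exact_mod_cast congrArg (fun n : ℕ => (n : ZMod p)) hsum
  have hinj : ∀ {x y : ℕ}, x < p → y < p → (x : ZMod p) = y → x = y := by
    intro x y hx hy hxy
    rw [ZMod.natCast_eq_natCast_iff'] at hxy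
    rwa [Nat.mod_eq_of_lt hx, Nat.mod_eq_of_lt hy] at hxy
  have hprod : ((a : ZMod p) - c) * (2 * (a - d)) = 0 := by
    have h1 : (b : ZMod p) = c + d - a := by linear_combination hs
    rw [h1] at hz
    linear_combination hz
  have h2ne : (2 : ZMod p) ≠ 0 := by
    intro h0
    have h1 : ((2 : ℕ) : ZMod p) = 0 := by exact_mod_cast h0
    rw [ZMod.natCast_eq_zero_iff] at h1
    have := Nat.le_of_dvd (by norm_num) h1
    omega
  rcases mul_eq_zero.1 hprod with h1 | h1
  · left
    have h2 := hinj ha hc (sub_eq_zero.1 h1)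
    exact ⟨h2, by omega⟩
  · right
    rcases mul_eq_zero.1 h1 with h2 | h2
    · exact absurd h2 h2ne
    · have h3 := hinj ha hd (sub_eq_zero.1 h2)
      exact ⟨h3, by omega⟩

theorem et_gap {p : ℕ} (hp : 0 < p) {i j : ℕ} (h : i < j) : et p i + p < et p j := by
  unfold et
  have h1 := Nat.mod_lt (i ^ 2) hp
  have h2 : 2 * p * (i + 1) ≤ 2 * p * j := Nat.mul_le_mul_left _ h
  have h3 : 2 * p * (i + 1) = 2 * p * i + 2 * p := by ring
  omega

theorem et_lt {p : ℕ} (hp : 0 < p) {i : ℕ} (h : i < p) : et p i < 2 * p * p := by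
  unfold et
  have h1 := Nat.mod_lt (i ^ 2) hp
  have h2 : 2 * p * (i + 1) ≤ 2 * p * p := Nat.mul_le_mul_left _ h
  have h3 : 2 * p * (i + 1) = 2 * p * i + 2 * p := by ring
  omega

/-- the `s`-th element of the block -/
def el (H N p s : ℕ) : ℕ := N - N / 4 + (4 * H + 1) * et p s

/-- a fast growing sequence of scales -/
structure Scales (H N p : ℕ → ℕ) : Prop where
  prime : ∀ i, (p i).Prime
  three : ∀ i, 2 < p i
  size : ∀ i, 16 * (4 * H (N i) + 1) * (p i * p i) ≤ N i
  grow : ∀ i j, j < i → 8 * N j ≤ N i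
  big : ∀ i j, j < i → 2 * N j ≤ p i

/-- the set -/
def Aset (H N p : ℕ → ℕ) : Set ℕ := {a | ∃ i, ∃ s < p i, a = el (H (N i)) (N i) (p i) s}

variable {H N p : ℕ → ℕ}

theorem Scales.H_le (h : Scales H N p) (i : ℕ) : 16 * H (N i) ≤ N i := by
  have h1 := h.size i
  have h2 := h.three i
  have h3 : 3 * 3 ≤ p i * p i := Nat.mul_le_mul h2 h2
  have h4 : 16 * (4 * H (N i) + 1) * (3 * 3) ≤ 16 * (4 * H (N i) + 1) * (p i * p i) :=
    Nat.mul_le_mul_left _ h3
  omega

theorem Scales.N_ge (h : Scales H N p) (i : ℕ) : 100 ≤ N i := by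
  have h1 := h.size i
  have h2 := h.three i
  have h3 : 3 * 3 ≤ p i * p i := Nat.mul_le_mul h2 h2
  have h4 : 16 * (4 * H (N i) + 1) * (3 * 3) ≤ 16 * (4 * H (N i) + 1) * (p i * p i) :=
    Nat.mul_le_mul_left _ h3
  omega

theorem Scales.el_le (h : Scales H N p) (i : ℕ) {s : ℕ} (hs : s < p i) :
    el (H (N i)) (N i) (p i) s ≤ N i - N i / 4 + N i / 8 := by
  have h1 := h.size i
  have h2 := et_lt (h.prime i).pos hs
  have h3 : (4 * H (N i) + 1) * et (p i) s ≤ (4 * H (N i) + 1) * (2 * p i * p i) :=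
    Nat.mul_le_mul_left _ h2.le
  have h4 : 8 * ((4 * H (N i) + 1) * (2 * p i * p i)) = 16 * (4 * H (N i) + 1) * (p i * p i) := by
    ring
  unfold el
  omega

theorem el_ge (H0 N0 p0 s : ℕ) : N0 - N0 / 4 ≤ el H0 N0 p0 s := Nat.le_add_right _ _

/-- two different elements of a block are far apart -/
theorem Scales.el_sep (h : Scales H N p) (i : ℕ) {s t : ℕ} (hst : s < t) :
    el (H (N i)) (N i) (p i) s + 2 * H (N i) + p i < el (H (N i)) (N i) (p i) t := by
  have h1 := et_gap (h.prime i).pos hst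
  have h3 : (4 * H (N i) + 1) * (et (p i) s + p i + 1) ≤ (4 * H (N i) + 1) * et (p i) t :=
    Nat.mul_le_mul_left _ h1
  have h4 : (4 * H (N i) + 1) * (et (p i) s + p i + 1) = (4 * H (N i) + 1) * et (p i) s +
    4 * (H (N i) * p i) + p i + 4 * H (N i) + 1 := by ring
  unfold el
  omega

/-- `x` is the image of an element of the `i`-th block -/
def Blk (H N p : ℕ → ℕ) (f : ℕ → ℕ) (i s x : ℕ) : Prop :=
  s < p i ∧ x = f (el (H (N i)) (N i) (p i) s)

theorem Scales.blk_bound (h : Scales H N p) (hm : Monotone H) {f : ℕ → ℕ} (hf : Disp H f)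
    {i s x : ℕ} (hx : Blk H N p f i s x) :
    N i - N i / 4 ≤ el (H (N i)) (N i) (p i) s ∧
      el (H (N i)) (N i) (p i) s ≤ N i - N i / 4 + N i / 8 ∧
      el (H (N i)) (N i) (p i) s ≤ x + H (N i) ∧
      x ≤ el (H (N i)) (N i) (p i) s + H (N i) := by
  have h1 := hx.2
  have h2 := h.el_le i hx.1
  have h3 := el_ge (H (N i)) (N i) (p i) s
  have h4 := hf (el (H (N i)) (N i) (p i) s)
  have h5 := hm (show el (H (N i)) (N i) (p i) s ≤ N i by omega)
  rw [← h1] at h4
  omega

/-- the main case of the Sidon property -/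
theorem Scales.key (h : Scales H N p) (hm : Monotone H) {f : ℕ → ℕ} (hf : Disp H f)
    {x y z w i1 i2 i3 i4 s1 s2 s3 s4 : ℕ} (hx : Blk H N p f i1 s1 x) (hy : Blk H N p f i2 s2 y)
    (hz : Blk H N p f i3 s3 z) (hw : Blk H N p f i4 s4 w) (h12 : i2 ≤ i1) (h34 : i4 ≤ i3)
    (hsum : x + y = z + w) : (x = z ∧ y = w) ∨ (x = w ∧ y = z) := by
  have bx := h.blk_bound hm hf hx
  have by' := h.blk_bound hm hf hy
  have bz := h.blk_bound hm hf hz
  have bw := h.blk_bound hm hf hw
  have e1 := h.H_le i1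
  have e2 := h.H_le i2
  have e3 := h.H_le i3
  have e4 := h.H_le i4
  have n1 := h.N_ge i1
  have n3 := h.N_ge i3
  have hN2 : N i2 ≤ N i1 := by
    rcases h12.lt_or_eq with h5 | h5
    · have := h.grow _ _ h5
      omega
    · rw [h5]
  have hN4 : N i4 ≤ N i3 := by
    rcases h34.lt_or_eq with h5 | h5
    · have := h.grow _ _ h5
      omega
    · rw [h5]
  have hii : i1 = i3 := by
    rcases lt_trichotomy i1 i3 with h5 | h5 | h5
    · exfalso
      have := h.grow _ _ h5
      omega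
    · exact h5
    · exfalso
      have := h.grow _ _ h5
      omega
  subst hii
  rcases h12.lt_or_eq with h5 | h5
  · -- `y` comes from a lower block
    have g5 := h.grow _ _ h5
    have b5 := h.big _ _ h5
    rcases h34.lt_or_eq with h6 | h6
    · have b6 := h.big _ _ h6
      have hss : s1 = s3 := by
        rcases lt_trichotomy s1 s3 with h7 | h7 | h7
        · exfalso
          have := h.el_sep i1 h7
          omega
        · exact h7
        · exfalso
          have := h.el_sep i1 h7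
          omega
      left
      have hxz : x = z := by rw [hx.2, hz.2, hss]
      exact ⟨hxz, by omega⟩
    · exfalso
      subst h6
      omega
  · subst h5
    rcases h34.lt_or_eq with h6 | h6
    · exfalso
      have g6 := h.grow _ _ h6
      omega
    · subst h6
      -- all in the same block
      have hW : et (p i4) s1 + et (p i4) s2 = et (p i4) s3 + et (p i4) s4 := by
        rcases lt_trichotomy (et (p i4) s1 + et (p i4) s2) (et (p i4) s3 + et (p i4) s4) with
          h7 | h7 | h7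
        · exfalso
          have h8 : (4 * H (N i4) + 1) * (et (p i4) s1 + et (p i4) s2 + 1) ≤
            (4 * H (N i4) + 1) * (et (p i4) s3 + et (p i4) s4) := Nat.mul_le_mul_left _ h7
          have h9 : (4 * H (N i4) + 1) * (et (p i4) s1 + et (p i4) s2 + 1) =
            (4 * H (N i4) + 1) * et (p i4) s1 + (4 * H (N i4) + 1) * et (p i4) s2 +
              4 * H (N i4) + 1 := by ring
          have h10 : (4 * H (N i4) + 1) * (et (p i4) s3 + et (p i4) s4) =
            (4 * H (N i4) + 1) * et (p i4) s3 + (4 * H (N i4) + 1) * et (p i4) s4 := by ring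
          simp only [el] at bx by' bz bw
          omega
        · exact h7
        · exfalso
          have h8 : (4 * H (N i4) + 1) * (et (p i4) s3 + et (p i4) s4 + 1) ≤
            (4 * H (N i4) + 1) * (et (p i4) s1 + et (p i4) s2) := Nat.mul_le_mul_left _ h7
          have h9 : (4 * H (N i4) + 1) * (et (p i4) s3 + et (p i4) s4 + 1) =
            (4 * H (N i4) + 1) * et (p i4) s3 + (4 * H (N i4) + 1) * et (p i4) s4 +
              4 * H (N i4) + 1 := by ring
          have h10 : (4 * H (N i4) + 1) * (et (p i4) s1 + et (p i4) s2) =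
            (4 * H (N i4) + 1) * et (p i4) s1 + (4 * H (N i4) + 1) * et (p i4) s2 := by ring
          simp only [el] at bx by' bz bw
          omega
      rcases et_sidon (h.prime i4) (h.three i4) hx.1 hy.1 hz.1 hw.1 hW with ⟨h7, h8⟩ | ⟨h7, h8⟩
      · left
        exact ⟨by rw [hx.2, hz.2, h7], by rw [hy.2, hw.2, h8]⟩
      · right
        exact ⟨by rw [hx.2, hw.2, h7], by rw [hy.2, hz.2, h8]⟩

theorem Scales.sidon (h : Scales H N p) (hm : Monotone H) {f : ℕ → ℕ} (hf : Disp H f)
    {x y z w : ℕ} (hx : x ∈ f '' Aset H N p) (hy : y ∈ f '' Aset H N p)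
    (hz : z ∈ f '' Aset H N p) (hw : w ∈ f '' Aset H N p) (hsum : x + y = z + w) :
    (x = z ∧ y = w) ∨ (x = w ∧ y = z) := by
  have hB : ∀ {x}, x ∈ f '' Aset H N p → ∃ i s, Blk H N p f i s x := by
    rintro x ⟨a, ⟨i, s, hs, rfl⟩, rfl⟩
    exact ⟨i, s, hs, rfl⟩
  obtain ⟨i1, s1, b1⟩ := hB hx
  obtain ⟨i2, s2, b2⟩ := hB hy
  obtain ⟨i3, s3, b3⟩ := hB hz
  obtain ⟨i4, s4, b4⟩ := hB hw
  rcases le_total i2 i1 with h1 | h1 <;> rcases le_total i4 i3 with h2 | h2
  · exact h.key hm hf b1 b2 b3 b4 h1 h2 hsum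
  · have := h.key hm hf b1 b2 b4 b3 h1 h2 (by omega)
    tauto
  · have := h.key hm hf b2 b1 b3 b4 h1 h2 (by omega)
    tauto
  · have := h.key hm hf b2 b1 b4 b3 h1 h2 (by omega)
    tauto

theorem Scales.rep_le (h : Scales H N p) (hm : Monotone H) {f : ℕ → ℕ} (hf : Disp H f)
    (n : ℕ) : rep (f '' Aset H N p) n ≤ 2 := by
  classical
  unfold rep
  by_cases hne : {q : ℕ × ℕ | q.1 + q.2 = n ∧ q.1 ∈ f '' Aset H N p ∧
      q.2 ∈ f '' Aset H N p}.Nonempty
  · obtain ⟨⟨x, y⟩, h1, h2, h3⟩ := hne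
    have hsub : {q : ℕ × ℕ | q.1 + q.2 = n ∧ q.1 ∈ f '' Aset H N p ∧
        q.2 ∈ f '' Aset H N p} ⊆ (({(x, y), (y, x)} : Finset (ℕ × ℕ)) : Set (ℕ × ℕ)) := by
      rintro ⟨z, w⟩ ⟨h4, h5, h6⟩
      simp only at h1 h2 h3 h4 h5 h6
      simp only [coe_insert, coe_singleton, Set.mem_insert_iff, Set.mem_singleton_iff,
        Prod.mk.injEq]
      rcases h.sidon hm hf h2 h3 h5 h6 (by omega) with ⟨h7, h8⟩ | ⟨h7, h8⟩
      · exact Or.inl ⟨h7.symm, h8.symm⟩
      · exact Or.inr ⟨h8.symm, h7.symm⟩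
    have h4 := Set.ncard_le_ncard hsub (Finset.finite_toSet _)
    rw [Set.ncard_coe_finset] at h4
    exact h4.trans Finset.card_le_two
  · rw [Set.not_nonempty_iff_eq_empty] at hne
    rw [hne]
    simp

theorem Scales.sparse (h : Scales H N p) (hm : Monotone H) : Sparse 1 H (Aset H N p) := by
  intro x
  have key : ∀ a b, a ∈ Aset H N p → b ∈ Aset H N p → x ≤ a → b ≤ x + H x → ¬ a < b := by
    rintro a b ⟨i, s, hs, rfl⟩ ⟨i', s', hs', rfl⟩ h1 h2 h3
    have h4 := hm h1
    have h5 := h.el_le i hs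
    have h6 := h.el_le i' hs'
    have h7 := el_ge (H (N i)) (N i) (p i) s
    have h8 := el_ge (H (N i')) (N i') (p i') s'
    have h9 := hm (show el (H (N i)) (N i) (p i) s ≤ N i by omega)
    have e1 := h.H_le i
    have n1 := h.N_ge i
    rcases lt_trichotomy i i' with h10 | h10 | h10
    · have := h.grow _ _ h10
      omega
    · subst h10
      rcases lt_trichotomy s s' with h11 | h11 | h11
      · have := h.el_sep i h11
        omega
      · subst h11
        omega
      · have := h.el_sep i h11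
        omega
    · have := h.grow _ _ h10
      omega
  rw [Set.ncard_le_one ((Set.finite_Icc _ _).subset Set.inter_subset_right)]
  intro a ha b hb
  rcases lt_trichotomy a b with h1 | h1 | h1
  · exact absurd h1 (key a b ha.1 hb.1 ha.2.1 hb.2.2)
  · exact h1
  · exact absurd h1 (key b a hb.1 ha.1 hb.2.1 ha.2.2)

end Pool.Agent.E8helper84.SM
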