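import Pool.Agent.E8helper84.SM.SM4

/-!
# Sharpness: the theorem
-/

set_option autoImplicit false

namespace Pool.Agent.E8helper84.SM

open Finset Filter

theorem exists_scale {H : ℕ → ℕ} {g : ℕ → ℝ} {C : ℝ} (hH : ∀ᶠ N in atTop, 1 ≤ H N)
    (hsmall : ∀ K : ℕ, ∀ᶠ N : ℕ in atTop, K * H N ≤ N) (hg : ∀ᶠ N in atTop, 0 < g N)
    (hf : ∃ᶠ N : ℕ in atTop, (H N : ℝ) ≤ C * g N ^ 2) (X : ℕ) :
    ∃ N p : ℕ, p.Prime ∧ 2 < p ∧ 16 * (4 * H N + 1) * (p * p) ≤ N ∧ 8 * X ≤ N ∧ 2 * X ≤ p ∧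
      0 < g N ∧ (N : ℝ) ≤ 320 * C * (g N * p) ^ 2 := by
  obtain ⟨N, h1, h2, h3, h4⟩ := (hf.and_eventually (hH.and
    ((hsmall (320 * (2 * X + 3) ^ 2 + 8 * X)).and hg))).exists
  set W := 4 * H N + 1 with hW
  set t := N / (64 * W) with ht
  have hW3 : W ≤ 5 * H N := by omega
  have ht1 : (2 * X + 3) * (2 * X + 3) ≤ t := by
    rw [ht, Nat.le_div_iff_mul_le (by positivity)]
    calc (2 * X + 3) * (2 * X + 3) * (64 * W)
        ≤ (2 * X + 3) * (2 * X + 3) * (64 * (5 * H N)) :=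
          Nat.mul_le_mul_left _ (Nat.mul_le_mul_left _ hW3)
      _ = 320 * (2 * X + 3) ^ 2 * H N := by ring
      _ ≤ (320 * (2 * X + 3) ^ 2 + 8 * X) * H N := Nat.mul_le_mul_right _ (Nat.le_add_right _ _)
      _ ≤ N := h3
  set q := Nat.sqrt t with hq
  have hq1 : 2 * X + 3 ≤ q := Nat.le_sqrt.2 ht1
  obtain ⟨p, hp, hqp, hp2⟩ := Nat.exists_prime_lt_and_le_two_mul q (by omega)
  refine ⟨N, p, hp, by omega, ?_, ?_, by omega, h4, ?_⟩
  · calc 16 * W * (p * p) ≤ 16 * W * (2 * q * (2 * q)) :=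
          Nat.mul_le_mul_left _ (Nat.mul_le_mul hp2 hp2)
      _ = 64 * W * (q * q) := by ring
      _ ≤ 64 * W * t := Nat.mul_le_mul_left _ (Nat.sqrt_le t)
      _ ≤ N := Nat.mul_div_le _ _
  · calc 8 * X = 8 * X * 1 := (mul_one _).symm
      _ ≤ (320 * (2 * X + 3) ^ 2 + 8 * X) * H N := Nat.mul_le_mul (by omega) h2
      _ ≤ N := h3
  · have e1 : N < 64 * W * (t + 1) := by
      have := Nat.lt_mul_div_succ N (show 0 < 64 * W by positivity)
      exact this
    have e2 : t + 1 ≤ p * p := by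
      have h5 : t < (q + 1) * (q + 1) := Nat.lt_succ_sqrt t
      have h6 : (q + 1) * (q + 1) ≤ p * p := Nat.mul_le_mul hqp hqp
      omega
    have e3 : N ≤ 64 * (5 * H N) * (p * p) := by
      calc N ≤ 64 * W * (t + 1) := e1.le
        _ ≤ 64 * W * (p * p) := Nat.mul_le_mul_left _ e2
        _ ≤ 64 * (5 * H N) * (p * p) := Nat.mul_le_mul_right _ (Nat.mul_le_mul_left _ hW3)
    have e4 : (N : ℝ) ≤ 64 * (5 * H N) * (p * p) := by exact_mod_cast e3
    calc (N : ℝ) ≤ 64 * (5 * H N) * (p * p) := e4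
      _ = 320 * (p * p) * (H N : ℝ) := by ring
      _ ≤ 320 * (p * p) * (C * g N ^ 2) := mul_le_mul_of_nonneg_left h1 (by positivity)
      _ = 320 * C * (g N * p) ^ 2 := by ring

theorem Scales.count_ge {H N p : ℕ → ℕ} (h : Scales H N p) (hm : Monotone H) {f : ℕ → ℕ}
    (hf : Disp H f) (i : ℕ) : (p i : ℝ) ≤ count (f '' Aset H N p) (N i) := by
  classical
  have hb : ∀ s < p i, Blk H N p f i s (f (el (H (N i)) (N i) (p i) s)) := fun s hs => ⟨hs, rfl⟩
  have hinj : Set.InjOn (fun s => f (el (H (N i)) (N i) (p i) s)) (range (p i) : Finset ℕ) := by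
    intro s hs t ht hst
    simp only at hst
    have b1 := h.blk_bound hm hf (hb s (by simpa using hs))
    have b2 := h.blk_bound hm hf (hb t (by simpa using ht))
    rcases lt_trichotomy s t with h1 | h1 | h1
    · have := h.el_sep i h1
      omega
    · exact h1
    · have := h.el_sep i h1
      omega
  have hsub : (((range (p i)).image (fun s => f (el (H (N i)) (N i) (p i) s)) : Finset ℕ) :
      Set ℕ) ⊆ f '' Aset H N p ∩ Set.Icc 1 (N i) := by
    intro a ha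
    simp only [coe_image, coe_range, Set.mem_image, Set.mem_Iio] at ha
    obtain ⟨s, hs, rfl⟩ := ha
    have b1 := h.blk_bound hm hf (hb s hs)
    have e1 := h.H_le i
    have n1 := h.N_ge i
    refine ⟨⟨_, ⟨i, s, hs, rfl⟩, rfl⟩, ?_, ?_⟩ <;> omega
  have h1 := Set.ncard_le_ncard hsub ((Set.finite_Icc 1 (N i)).subset Set.inter_subset_right)
  rw [Set.ncard_coe_finset, card_image_of_injOn hinj, card_range] at h1
  unfold count
  exact_mod_cast h1

/-- **Sharpness.** -/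
theorem sharp {H : ℕ → ℕ} (hm : Monotone H) {g : ℕ → ℝ} {C : ℝ} (hC : 0 < C)
    (hH : ∀ᶠ N in atTop, 1 ≤ H N) (hsmall : ∀ K : ℕ, ∀ᶠ N : ℕ in atTop, K * H N ≤ N)
    (hg : ∀ᶠ N in atTop, 0 < g N) (hf : ∃ᶠ N : ℕ in atTop, (H N : ℝ) ≤ C * g N ^ 2) :
    ∃ (S : Set ℕ) (c : ℝ), 0 < c ∧ Sparse 1 H S ∧ ∀ f : ℕ → ℕ, Disp H f →
      (∃ᶠ N : ℕ in atTop, c * Real.sqrt N ≤ g N * count (f '' S) N) ∧
        ∀ n, rep (f '' S) n ≤ 2 := by
  choose fN fp hp1 hp2 hp3 hp4 hp5 hp6 hp7 using exists_scale hH hsmall hg hf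
  let X : ℕ → ℕ := fun i => Nat.rec 1 (fun _ x => fN x) i
  have hX1 : ∀ i, X (i + 1) = fN (X i) := fun _ => rfl
  have hXm : ∀ i, X i ≤ X (i + 1) := fun i => by
    have := hp4 (X i)
    rw [hX1]
    omega
  have hXmono : Monotone X := monotone_nat_of_le_succ hXm
  have hXi : ∀ i, i + 1 ≤ X i := by
    intro i
    induction i with
    | zero => exact le_refl 1
    | succ i ih =>
      have := hp4 (X i)
      rw [hX1]
      omega
  have hS : Scales H (fun i => fN (X i)) (fun i => fp (X i)) := by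
    refine ⟨fun i => hp1 _, fun i => hp2 _, fun i => hp3 _, fun i j hij => ?_, fun i j hij => ?_⟩
    · have h1 := hXmono (show j + 1 ≤ i from hij)
      rw [hX1] at h1
      have h2 := hp4 (X i)
      omega
    · have h1 := hXmono (show j + 1 ≤ i from hij)
      rw [hX1] at h1
      have h2 := hp5 (X i)
      omega
  have hsq : 0 < Real.sqrt (320 * C) := Real.sqrt_pos.2 (by positivity)
  refine ⟨Aset H (fun i => fN (X i)) (fun i => fp (X i)), 1 / Real.sqrt (320 * C), by positivity,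
    hS.sparse hm, fun f hf => ⟨?_, fun n => hS.rep_le hm hf n⟩⟩
  rw [frequently_atTop]
  intro M
  refine ⟨fN (X M), ?_, ?_⟩
  · have h1 := hXi (M + 1)
    rw [hX1] at h1
    omega
  · have h1 := hS.count_ge hm hf M
    have h2 := hp7 (X M)
    have h3 := hp6 (X M)
    have h4 : Real.sqrt (fN (X M)) ≤ Real.sqrt (320 * C) * (g (fN (X M)) * fp (X M)) := by
      rw [Real.sqrt_le_left (by positivity), mul_pow, Real.sq_sqrt (by positivity)]
      exact h2
    have h5 : 1 / Real.sqrt (320 * C) * Real.sqrt (fN (X M)) ≤ g (fN (X M)) * fp (X M) := by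
      rw [one_div, inv_mul_le_iff₀ hsq]
      exact h4
    exact h5.trans (mul_le_mul_of_nonneg_left h1 h3.le)

end Pool.Agent.E8helper84.SM
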