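import Pool.Agent.E8helper84.SM.SM5

/-!
# Random perturbations with range `h`, and bounded perturbations
-/

set_option autoImplicit false

namespace Pool.Agent.E8helper84.SM

open Finset MeasureTheory ProbabilityTheory Filter

universe u

variable {Ω : Type u} [MeasurableSpace Ω] {μ : Measure Ω} [IsProbabilityMeasure μ]

omit [IsProbabilityMeasure μ] in
theorem Pert.perturbs {ε : ℕ → Ω → ℕ} {h : ℕ → ℕ} (hm : Monotone h) (hP : Pert μ ε h) {τ : ℝ}
    (hτ : 0 < τ) : Perturbs μ ε τ (fun N => h ⌊(N : ℝ) ^ τ⌋₊) := by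
  refine ⟨hP.1, hP.2.1, fun δ hδ => ?_⟩
  obtain ⟨a0, ha0⟩ := eventually_atTop.1 (hP.2.2 δ hδ)
  filter_upwards [(tendsto_rpow_nat hτ).eventually_ge_atTop ((a0 : ℝ) + 1)] with N hN a ha1 ha2 i hi
  have h1 : (a0 : ℝ) + 1 ≤ a := hN.trans ha1
  have h2 : a0 + 1 ≤ a := by exact_mod_cast h1
  have h3 : ⌊(N : ℝ) ^ τ⌋₊ ≤ a := Nat.floor_le_of_le ha1
  have h4 := ha0 a (by omega) i (lt_of_lt_of_le hi (hm h3))
  refine le_trans ?_ h4
  have h5 : (0 : ℝ) < a := by linarith [(Nat.cast_nonneg a0 : (0 : ℝ) ≤ a0)]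
  have h6 : (a : ℝ) ≤ N := by exact_mod_cast ha2
  exact Real.rpow_le_rpow_of_nonpos h5 h6 (by linarith)

theorem Pert.le_rpow {ε : ℕ → Ω → ℕ} {h : ℕ → ℕ} (hP : Pert μ ε h) {δ : ℝ} (hδ : 0 < δ) :
    ∀ᶠ a : ℕ in atTop, (h a : ℝ) ≤ (a : ℝ) ^ δ := by
  filter_upwards [hP.2.2 δ hδ, eventually_ge_atTop 1] with a ha ha1
  have h1 := range_le (hP.1 a) ha
  have h0 : (0 : ℝ) < a := by exact_mod_cast ha1
  rw [Real.rpow_neg h0.le] at h1
  have h2 : 0 < (a : ℝ) ^ δ := Real.rpow_pos_of_pos h0 _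
  rw [← div_eq_mul_inv, div_le_one h2] at h1
  exact h1

theorem Pert.small {ε : ℕ → Ω → ℕ} {h : ℕ → ℕ} (hP : Pert μ ε h) (K : ℕ) :
    ∀ᶠ N : ℕ in atTop, K * h N ≤ N := by
  filter_upwards [hP.le_rpow (show (0 : ℝ) < 1 / 2 by norm_num),
    (tendsto_rpow_nat (show (0 : ℝ) < 1 / 2 by norm_num)).eventually_ge_atTop (K : ℝ),
    eventually_ge_atTop 1] with N h1 h2 h3
  have h0 : (0 : ℝ) < N := by exact_mod_cast h3
  have h4 : (K : ℝ) * h N ≤ (N : ℝ) ^ ((1 : ℝ) / 2) * (N : ℝ) ^ ((1 : ℝ) / 2) :=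
    mul_le_mul h2 h1 (Nat.cast_nonneg _) (Real.rpow_nonneg h0.le _)
  rw [← Real.rpow_add h0] at h4
  norm_num at h4
  exact_mod_cast h4

theorem floor_tendsto {τ : ℝ} (hτ : 0 < τ) :
    Tendsto (fun N : ℕ => ⌊(N : ℝ) ^ τ⌋₊) atTop atTop :=
  tendsto_nat_floor_atTop.comp (tendsto_rpow_nat hτ)

/-! ## slow variation -/

theorem SlowVar.four {h : ℕ → ℕ} (hs : SlowVar h) :
    ∃ K : ℕ, ∀ᶠ N : ℕ in atTop, h (N ^ 4) ≤ K * h N := by
  obtain ⟨K, hK⟩ := hs
  obtain ⟨N0, hN0⟩ := eventually_atTop.1 hK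
  refine ⟨K * K, ?_⟩
  filter_upwards [eventually_ge_atTop (N0 + 1)] with N hN
  have h1 := hN0 N (by omega)
  have h2 := hN0 (N ^ 2) (by
    calc N0 ≤ N * 1 := by omega
      _ ≤ N * N := Nat.mul_le_mul_left _ (by omega)
      _ = N ^ 2 := by ring)
  have h3 : (N ^ 2) ^ 2 = N ^ 4 := by ring
  rw [h3] at h2
  calc h (N ^ 4) ≤ K * h (N ^ 2) := h2
    _ ≤ K * (K * h N) := Nat.mul_le_mul_left _ h1
    _ = K * K * h N := by ring

theorem SlowVar.root {h : ℕ → ℕ} (hm : Monotone h) (hs : SlowVar h) :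
    ∃ K : ℕ, 0 < K ∧ ∀ᶠ N : ℕ in atTop, h N ≤ K * h ⌊(N : ℝ) ^ ((1 : ℝ) / 3)⌋₊ := by
  obtain ⟨K, hK⟩ := hs.four
  refine ⟨K + 1, by omega, ?_⟩
  have hfl := floor_tendsto (show (0 : ℝ) < 1 / 3 by norm_num)
  filter_upwards [hfl.eventually hK, hfl.eventually_ge_atTop 3] with N h1 h2
  set M := ⌊(N : ℝ) ^ ((1 : ℝ) / 3)⌋₊ with hM
  have h3 : N ≤ M ^ 4 := by
    have h4 : (N : ℝ) ^ ((1 : ℝ) / 3) < M + 1 := Nat.lt_floor_add_one _
    have h5 : (N : ℝ) ≤ ((M : ℝ) + 1) ^ 3 := by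
      calc (N : ℝ) = ((N : ℝ) ^ ((1 : ℝ) / 3)) ^ 3 := by
            rw [← Real.rpow_natCast, ← Real.rpow_mul (Nat.cast_nonneg N)]
            norm_num
        _ ≤ ((M : ℝ) + 1) ^ 3 := pow_le_pow_left₀ (Real.rpow_nonneg (Nat.cast_nonneg N) _) h4.le 3
    have h6 : N ≤ (M + 1) ^ 3 := by exact_mod_cast h5
    refine h6.trans ?_
    obtain ⟨u, hu⟩ := Nat.exists_eq_add_of_le h2
    rw [hu]
    nlinarith [sq_nonneg u, Nat.zero_le (u ^ 3), Nat.zero_le (u ^ 4)]
  calc h N ≤ h (M ^ 4) := hm h3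
    _ ≤ K * h M := h1
    _ ≤ (K + 1) * h M := Nat.mul_le_mul_right _ (Nat.le_succ K)

theorem SlowVar.small {h : ℕ → ℕ} (hm : Monotone h) (hs : SlowVar h) {δ : ℝ} (hδ : 0 < δ) :
    ∀ᶠ N : ℕ in atTop, (h N : ℝ) ≤ (N : ℝ) ^ δ := by
  obtain ⟨K, hK⟩ := hs
  obtain ⟨N0, hN0⟩ := eventually_atTop.1 hK
  set η : ℝ := δ / 2 with hη
  have hη0 : 0 < η := by positivity
  have hsqrt : Tendsto (fun n : ℕ => Real.sqrt (n : ℝ)) atTop atTop :=
    Real.tendsto_sqrt_atTop.comp tendsto_natCast_atTop_atTop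
  have hlim : ∀ᶠ n : ℕ in atTop, (K : ℝ) ≤ (Real.sqrt n / 3) ^ η :=
    ((tendsto_rpow_atTop hη0).comp (hsqrt.atTop_div_const (by norm_num))).eventually_ge_atTop _
  obtain ⟨n1, hn1⟩ := eventually_atTop.1 (hlim.and ((eventually_ge_atTop (N0 ^ 2)).and
    (eventually_ge_atTop 16)))
  -- the bound with a constant
  have key : ∀ n : ℕ, (h n : ℝ) ≤ (h n1 : ℝ) * ((n : ℝ) + 1) ^ η := by
    intro n
    induction n using Nat.strong_induction_on with
    | _ n ih =>
      rcases lt_or_ge n n1 with h1 | h1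
      · have h2 : (h n : ℝ) ≤ h n1 := by exact_mod_cast hm h1.le
        have h3 : (1 : ℝ) ≤ ((n : ℝ) + 1) ^ η :=
          Real.one_le_rpow (by linarith [(Nat.cast_nonneg n : (0 : ℝ) ≤ n)]) hη0.le
        calc (h n : ℝ) ≤ h n1 * 1 := by linarith
          _ ≤ h n1 * ((n : ℝ) + 1) ^ η := mul_le_mul_of_nonneg_left h3 (Nat.cast_nonneg _)
      · obtain ⟨h2, h3, h4⟩ := hn1 n h1
        set s := Nat.sqrt n with hsdef
        have e1 : s * s ≤ n := Nat.sqrt_le n
        have e2 : n < (s + 1) * (s + 1) := Nat.lt_succ_sqrt n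
        have e3 : N0 ≤ s := by
          rw [hsdef, Nat.le_sqrt]
          calc N0 * N0 = N0 ^ 2 := by ring
            _ ≤ n := h3
        have e4 : 4 ≤ s := by
          rw [hsdef, Nat.le_sqrt]
          omega
        have e5 : s + 1 < n := by
          calc s + 1 < 4 * s := by omega
            _ ≤ s * s := Nat.mul_le_mul_right _ e4
            _ ≤ n := e1
        have h5 := hN0 (s + 1) (by omega)
        have h6 : h n ≤ K * h (s + 1) := by
          refine (hm ?_).trans h5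
          calc n ≤ (s + 1) * (s + 1) := e2.le
            _ = (s + 1) ^ 2 := by ring
        have h7 := ih (s + 1) e5
        have h8 : (h n : ℝ) ≤ K * h (s + 1) := by exact_mod_cast h6
        have hn0 : (0 : ℝ) < n := by
          have : 0 < n := by omega
          exact_mod_cast this
        have hsr : (s : ℝ) ≤ Real.sqrt n := by
          rw [hsdef]
          exact Real.nat_sqrt_le_real_sqrt
        have hs4 : (4 : ℝ) ≤ s := by exact_mod_cast e4
        have h9 : (((s + 1 : ℕ) : ℝ) + 1) ≤ 3 * Real.sqrt n := by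
          push_cast
          linarith
        have h10 : (K : ℝ) * (((s + 1 : ℕ) : ℝ) + 1) ^ η ≤ ((n : ℝ) + 1) ^ η := by
          calc (K : ℝ) * (((s + 1 : ℕ) : ℝ) + 1) ^ η
              ≤ (Real.sqrt n / 3) ^ η * (3 * Real.sqrt n) ^ η :=
                mul_le_mul h2 (Real.rpow_le_rpow (by positivity) h9 hη0.le)
                  (Real.rpow_nonneg (by positivity) _) (Real.rpow_nonneg (by positivity) _)
            _ = (n : ℝ) ^ η := by
                rw [← Real.mul_rpow (by positivity) (by positivity)]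
                congr 1
                have h11 := Real.mul_self_sqrt hn0.le
                linarith
            _ ≤ ((n : ℝ) + 1) ^ η := Real.rpow_le_rpow hn0.le (by linarith) hη0.le
        calc (h n : ℝ) ≤ K * h (s + 1) := h8
          _ ≤ K * ((h n1 : ℝ) * (((s + 1 : ℕ) : ℝ) + 1) ^ η) :=
              mul_le_mul_of_nonneg_left h7 (Nat.cast_nonneg _)
          _ = (h n1 : ℝ) * (K * (((s + 1 : ℕ) : ℝ) + 1) ^ η) := by ring
          _ ≤ (h n1 : ℝ) * ((n : ℝ) + 1) ^ η :=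
              mul_le_mul_of_nonneg_left h10 (Nat.cast_nonneg _)
  filter_upwards [(tendsto_rpow_nat hη0).eventually_ge_atTop ((h n1 : ℝ) * 2 ^ η),
    eventually_ge_atTop 1] with N h1 h2
  have hN1 : (1 : ℝ) ≤ N := by exact_mod_cast h2
  calc (h N : ℝ) ≤ (h n1 : ℝ) * ((N : ℝ) + 1) ^ η := key N
    _ ≤ (h n1 : ℝ) * (2 * N) ^ η := by
        refine mul_le_mul_of_nonneg_left ?_ (Nat.cast_nonneg _)
        exact Real.rpow_le_rpow (by linarith) (by linarith) hη0.le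
    _ = (h n1 : ℝ) * 2 ^ η * (N : ℝ) ^ η := by
        rw [Real.mul_rpow (by norm_num) (by linarith)]
        ring
    _ ≤ (N : ℝ) ^ η * (N : ℝ) ^ η :=
        mul_le_mul_of_nonneg_right h1 (Real.rpow_nonneg (by linarith) _)
    _ = (N : ℝ) ^ δ := by
        rw [← Real.rpow_add (by linarith)]
        congr 1
        rw [hη]
        ring

/-! ## bounded displacement -/

/-- the displacement of `f` is at most `H` everywhere -/
theorem image_bounded {A : Set ℕ} {f : ℕ → ℕ} {H K : ℕ} (hf : ∀ a, f a ≤ a + H ∧ a ≤ f a + H)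
    (hK : ∀ n, rep A n ≤ K) (n : ℕ) : rep (f '' A) n ≤ (4 * H + 1) * K := by
  classical
  -- a preimage
  have hpre : ∀ x : ℕ, x ∈ f '' A → ∃ a, a ∈ A ∧ f a = x := by
    rintro x ⟨a, ha, rfl⟩
    exact ⟨a, ha, rfl⟩
  let q : ℕ → ℕ := fun x => if hx : x ∈ f '' A then (hpre x hx).choose else 0
  have hq : ∀ x ∈ f '' A, q x ∈ A ∧ f (q x) = x := by
    intro x hx
    simp only [q, dif_pos hx]
    exact (hpre x hx).choose_spec
  set R := (rep_finite (f '' A) n).toFinset with hR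
  set T := (Icc (n - 2 * H) (n + 2 * H)).biUnion (fun m => (rep_finite A m).toFinset) with hT
  have h1 : R.card ≤ T.card := by
    refine card_le_card_of_injOn (fun r => (q r.1, q r.2)) ?_ ?_
    · intro r hr
      simp only [hR, Set.Finite.coe_toFinset, Set.mem_ofPred_eq] at hr
      obtain ⟨h2, h3, h4⟩ := hr
      obtain ⟨f1, f2⟩ := hq _ h3
      obtain ⟨f3, f4⟩ := hq _ h4
      have e1 := hf (q r.1)
      have e2 := hf (q r.2)
      rw [f2] at e1
      rw [f4] at e2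
      simp only [hT, coe_biUnion, Set.mem_iUnion, Set.Finite.coe_toFinset, Set.mem_ofPred_eq,
        mem_coe, mem_Icc, exists_prop]
      exact ⟨q r.1 + q r.2, ⟨by omega, by omega⟩, rfl, f1, f3⟩
    · intro r hr t ht hrt
      simp only [hR, Set.Finite.coe_toFinset, Set.mem_ofPred_eq] at hr ht
      simp only [Prod.mk.injEq] at hrt
      refine Prod.ext ?_ ?_
      · rw [← (hq _ hr.2.1).2, ← (hq _ ht.2.1).2, hrt.1]
      · rw [← (hq _ hr.2.2).2, ← (hq _ ht.2.2).2, hrt.2]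
  have h2 : T.card ≤ (Icc (n - 2 * H) (n + 2 * H)).card * K :=
    card_biUnion_le_card_mul _ _ _ fun m _ => by
      have := hK m
      unfold rep at this
      rwa [Set.ncard_eq_toFinset_card _ (rep_finite A m)] at this
  have h3 : (Icc (n - 2 * H) (n + 2 * H)).card ≤ 4 * H + 1 := by
    rw [Nat.card_Icc]
    omega
  unfold rep
  rw [Set.ncard_eq_toFinset_card _ (rep_finite (f '' A) n)]
  exact h1.trans (h2.trans (Nat.mul_le_mul_right _ h3))

theorem bounded_image {A : Set ℕ} {f : ℕ → ℕ} {H K : ℕ} (hf : ∀ a, f a ≤ a + H ∧ a ≤ f a + H)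
    (hK : ∀ n, rep (f '' A) n ≤ K) (n : ℕ) :
    rep A n ≤ (2 * H + 1) ^ 2 * ((4 * H + 1) * K) := by
  classical
  set R := (rep_finite A n).toFinset with hR
  set T := (Icc (n - 2 * H) (n + 2 * H)).biUnion (fun m => (rep_finite (f '' A) m).toFinset)
    with hT
  have hmap : ∀ q ∈ R, ((f q.1, f q.2) : ℕ × ℕ) ∈ T := by
    intro q hq
    simp only [hR, Set.Finite.mem_toFinset, Set.mem_ofPred_eq] at hq
    have e1 := hf q.1
    have e2 := hf q.2
    simp only [hT, mem_biUnion, mem_Icc, Set.Finite.mem_toFinset, Set.mem_ofPred_eq]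
    exact ⟨f q.1 + f q.2, ⟨by omega, by omega⟩, rfl, ⟨_, hq.2.1, rfl⟩, ⟨_, hq.2.2, rfl⟩⟩
  have h1 : R.card ≤ (2 * H + 1) ^ 2 * T.card := by
    refine card_le_mul_card_image_of_maps_to hmap ((2 * H + 1) ^ 2) ?_
    rintro ⟨x, y⟩ -
    have hsub : {q ∈ R | ((f q.1, f q.2) : ℕ × ℕ) = (x, y)} ⊆
        (Icc (x - H) (x + H)) ×ˢ (Icc (y - H) (y + H)) := by
      rintro ⟨a, b⟩ hq
      simp only [mem_filter, Prod.mk.injEq] at hq
      have e1 := hf a
      have e2 := hf b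
      simp only [mem_product, mem_Icc]
      omega
    refine (card_le_card hsub).trans ?_
    rw [card_product, Nat.card_Icc, Nat.card_Icc, pow_two]
    exact Nat.mul_le_mul (by omega) (by omega)
  have h2 : T.card ≤ (Icc (n - 2 * H) (n + 2 * H)).card * K :=
    card_biUnion_le_card_mul _ _ _ fun m _ => by
      have := hK m
      unfold rep at this
      rwa [Set.ncard_eq_toFinset_card _ (rep_finite (f '' A) m)] at this
  have h3 : (Icc (n - 2 * H) (n + 2 * H)).card ≤ 4 * H + 1 := by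
    rw [Nat.card_Icc]
    omega
  unfold rep
  rw [Set.ncard_eq_toFinset_card _ (rep_finite A n)]
  exact h1.trans (Nat.mul_le_mul_left _ (h2.trans (Nat.mul_le_mul_right _ h3)))

/-- A map with bounded displacement does not change whether the representation function is
bounded. -/
theorem bounded_iff {A : Set ℕ} {f : ℕ → ℕ} {H : ℕ} (hf : ∀ a, f a ≤ a + H ∧ a ≤ f a + H) :
    (∃ K, ∀ n, rep (f '' A) n ≤ K) ↔ ∃ K, ∀ n, rep A n ≤ K :=
  ⟨fun ⟨_, hK⟩ => ⟨_, bounded_image hf hK⟩, fun ⟨_, hK⟩ => ⟨_, image_bounded hf hK⟩⟩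

end Pool.Agent.E8helper84.SM
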