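import Pool.Agent.E8helper84.SM.SM6
import Pool.Agent.Y940.CT.Sharp

/-!
# All subsets of a randomly perturbed set
-/

set_option autoImplicit false

namespace Pool.Agent.E8helper84.SM

open Finset MeasureTheory ProbabilityTheory Filter

universe u

variable {Ω : Type u} [MeasurableSpace Ω] {μ : Measure Ω} [IsProbabilityMeasure μ]

open Classical in
/-- the expected number of `s ∈ S` which are moved to `n` -/
noncomputable def dens (μ : Measure Ω) (ε : ℕ → Ω → ℕ) (S : Set ℕ) (n : ℕ) : ℝ :=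
  ∑ s ∈ (range (n + 1)).filter (fun s => s ∈ S), μ.real {ω | ε s ω = n - s}

theorem sub_shift {ε : ℕ → Ω → ℕ} (hε : ∀ a, Measurable (ε a)) (hi : iIndepFun ε μ) (S : Set ℕ) :
    Pool.Agent.Y940.CT.Sub μ (fun n => {ω | n ∈ shift (fun a => ε a ω) S}) (dens μ ε S) := by
  classical
  refine ⟨fun n => Finset.sum_nonneg fun _ _ => measureReal_nonneg, fun T => ?_⟩
  set t : T → Finset ℕ := fun i => (range ((i : ℕ) + 1)).filter (fun s => s ∈ S) with ht
  have hprod : ∏ n ∈ T, dens μ ε S n =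
      ∑ x ∈ Fintype.piFinset t, ∏ i : T, μ.real {ω | ε (x i) ω = (i : ℕ) - x i} := by
    rw [← Finset.prod_univ_sum t (fun (i : T) (s : ℕ) => μ.real {ω | ε s ω = (i : ℕ) - s}),
      ← Finset.prod_coe_sort]
    refine Finset.prod_congr rfl fun i _ => ?_
    unfold dens
    rw [ht]
  rw [hprod]
  have hsub : (⋂ n ∈ T, {ω | n ∈ shift (fun a => ε a ω) S}) ⊆
      ⋃ x ∈ Fintype.piFinset t, {ω | ∀ i : T, ε (x i) ω = (i : ℕ) - x i} := by
    intro ω hω
    simp only [Set.mem_iInter, Set.mem_ofPred_eq] at hω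
    have h1 : ∀ i : T, ∃ s, s ∈ S ∧ s + ε s ω = i := fun i => by
      obtain ⟨s, hs, hs2⟩ := hω i i.2
      exact ⟨s, hs, hs2⟩
    choose x hx1 hx2 using h1
    simp only [Set.mem_iUnion, exists_prop, Set.mem_ofPred_eq]
    refine ⟨x, ?_, fun i => ?_⟩
    · rw [Fintype.mem_piFinset]
      intro i
      simp only [ht, mem_filter, mem_range]
      have := hx2 i
      exact ⟨by omega, hx1 i⟩
    · have := hx2 i
      omega
  refine (measureReal_mono hsub (measure_ne_top _ _)).trans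
    ((measureReal_biUnion_finset_le _ _).trans (Finset.sum_le_sum fun x hx => ?_))
  rw [Fintype.mem_piFinset] at hx
  have hxi : ∀ i : T, x i ≤ i := fun i => by
    have := hx i
    simp only [ht, mem_filter, mem_range] at this
    omega
  by_cases hinj : Function.Injective x
  · have h1 := (hi.precomp hinj).measure_inter_preimage_eq_mul (S := Finset.univ)
      (sets := fun i : T => {(i : ℕ) - x i}) (fun _ _ => MeasurableSet.singleton _)
    have h2 : {ω | ∀ i : T, ε (x i) ω = (i : ℕ) - x i} =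
        ⋂ i ∈ (Finset.univ : Finset T), (fun ω => ε (x i) ω) ⁻¹' {(i : ℕ) - x i} := by
      ext ω
      simp
    unfold Measure.real
    rw [h2]
    refine le_of_eq ?_
    have h3 := congrArg ENNReal.toReal h1
    rw [ENNReal.toReal_prod] at h3
    exact h3
  · have h1 : {ω | ∀ i : T, ε (x i) ω = (i : ℕ) - x i} = ∅ := by
      rw [Set.eq_empty_iff_forall_notMem]
      intro ω hω
      refine hinj fun i j hij => ?_
      have e1 := hω i
      have e2 := hω j
      have e3 := hxi i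
      have e4 := hxi j
      rw [← hij] at e2 e4
      exact Subtype.ext (by omega)
    rw [h1, measureReal_empty]
    exact Finset.prod_nonneg fun _ _ => measureReal_nonneg

theorem rep_eq (A : Set ℕ) (n : ℕ) : Pool.Agent.Y940.RS.rep A n = rep A n := by
  unfold Pool.Agent.Y940.RS.rep rep
  congr 1
  ext x
  simp only [Set.mem_ofPred_eq]
  tauto

/-- **All subsets.** -/
theorem subsets_forced {ε : ℕ → Ω → ℕ} (hε : ∀ a, Measurable (ε a)) (hi : iIndepFun ε μ)
    (S : Set ℕ) {g : ℕ → ℝ} (hg : Tendsto g atTop atTop)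
    (hg2 : ∀ η : ℝ, 0 < η → ∀ᶠ N : ℕ in atTop, g N ≤ (N : ℝ) ^ η)
    (hgp : ∀ η : ℝ, 0 < η → ∀ᶠ N : ℕ in atTop, ∀ n : ℕ, n ≤ N → (N : ℝ) ≤ n * g N ^ 3 →
      dens μ ε S n * g N ^ 2 ≤ η) :
    ∀ᵐ ω ∂μ, ∀ B : Set ℕ, B ⊆ shift (fun a => ε a ω) S → ∀ c : ℝ, 0 < c →
      (∃ᶠ N : ℕ in atTop, c * Real.sqrt N ≤ g N * count B N) → ∀ k, ∃ n, k ≤ rep B n := by
  have h1 := Pool.Agent.Y940.CT.forces_inside (sub_shift hε hi S) hg hg2 hgp
  filter_upwards [h1] with ω hω B hB c hc hf k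
  have hB' : B ⊆ Pool.Agent.Y940.RS.rset (fun n => {ω | n ∈ shift (fun a => ε a ω) S}) ω := by
    intro n hn
    exact hB hn
  obtain ⟨n, hn⟩ := hω B hB' c hc hf k
  rw [rep_eq] at hn
  exact ⟨n, hn.le⟩

/-- Some `g → ∞` forces inside every randomly perturbed set whose expected density tends to zero. -/
theorem subsets_exists {d : ℕ → ℝ} (hd : Tendsto d atTop (nhds 0)) :
    ∃ g : ℕ → ℝ, Tendsto g atTop atTop ∧
      ∀ (Ω : Type u) [MeasurableSpace Ω] (μ : Measure Ω) [IsProbabilityMeasure μ]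
        (ε : ℕ → Ω → ℕ) (S : Set ℕ), (∀ a, Measurable (ε a)) → iIndepFun ε μ →
        (∀ᶠ n in atTop, dens μ ε S n ≤ d n) →
      ∀ᵐ ω ∂μ, ∀ B : Set ℕ, B ⊆ shift (fun a => ε a ω) S → ∀ c : ℝ, 0 < c →
        (∃ᶠ N : ℕ in atTop, c * Real.sqrt N ≤ g N * count B N) → ∀ k, ∃ n, k ≤ rep B n := by
  obtain ⟨g, hg1, hg2, hg3⟩ := Pool.Agent.Y940.CT.exists_g hd
  refine ⟨g, hg1, fun Ω _ μ _ ε S hε hi hS => ?_⟩
  refine subsets_forced hε hi S hg1 hg2 fun η hη => ?_
  obtain ⟨n0, hn0⟩ := eventually_atTop.1 hS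
  filter_upwards [hg3 η hη, hg2 (1 / 6) (by norm_num), hg1.eventually_ge_atTop 1,
    (tendsto_rpow_nat (show (0 : ℝ) < 1 / 2 by norm_num)).eventually_ge_atTop ((n0 : ℝ) + 1),
    eventually_ge_atTop 1] with N h1 h2 h3 h4 h5 n hn1 hn2
  have hN0 : (0 : ℝ) < N := by exact_mod_cast h5
  have hge : n0 ≤ n := by
    by_contra hcon
    push Not at hcon
    have h6 : (n : ℝ) < n0 + 1 := by
      have : (n : ℝ) < n0 := by exact_mod_cast hcon
      linarith
    have h7 : g N ^ 3 ≤ (N : ℝ) ^ ((1 : ℝ) / 2) := by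
      calc g N ^ 3 ≤ ((N : ℝ) ^ ((1 : ℝ) / 6)) ^ 3 := pow_le_pow_left₀ (by linarith) h2 3
        _ = (N : ℝ) ^ ((1 : ℝ) / 2) := by
            rw [← Real.rpow_natCast, ← Real.rpow_mul hN0.le]
            norm_num
    have h8 : (n : ℝ) * g N ^ 3 < (N : ℝ) ^ ((1 : ℝ) / 2) * (N : ℝ) ^ ((1 : ℝ) / 2) := by
      have h9 : 0 < g N ^ 3 := by positivity
      calc (n : ℝ) * g N ^ 3 < (n0 + 1) * g N ^ 3 := mul_lt_mul_of_pos_right h6 h9
        _ ≤ (N : ℝ) ^ ((1 : ℝ) / 2) * (N : ℝ) ^ ((1 : ℝ) / 2) :=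
            mul_le_mul h4 h7 h9.le (Real.rpow_nonneg hN0.le _)
    rw [← Real.rpow_add hN0] at h8
    norm_num at h8
    linarith
  exact (mul_le_mul_of_nonneg_right (hn0 n hge) (sq_nonneg _)).trans (h1 n hn1 hn2)

end Pool.Agent.E8helper84.SM
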