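import Pool.Agent.E8helper84.SM.SM7

/-!
# Existence of small perturbations inside which some `g → ∞` forces
-/

set_option autoImplicit false

namespace Pool.Agent.E8helper84.SM

open Finset MeasureTheory ProbabilityTheory Filter

/-- independent random variables, uniformly distributed on `{0, …, v s}` -/
theorem exists_uniform (v : ℕ → ℕ) :
    ∃ (Ω : Type) (_ : MeasurableSpace Ω) (μ : Measure Ω) (_ : IsProbabilityMeasure μ)
      (ε : ℕ → Ω → ℕ), (∀ s, Measurable (ε s)) ∧ iIndepFun ε μ ∧ (∀ s ω, ε s ω ≤ v s) ∧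
        ∀ s i, i ≤ v s → μ.real {ω | ε s ω = i} = 1 / ((v s : ℝ) + 1) := by
  classical
  set P : (s : ℕ) → Measure (Fin (v s + 1)) := fun s =>
    (PMF.uniformOfFintype (Fin (v s + 1))).toMeasure with hP
  refine ⟨(s : ℕ) → Fin (v s + 1), inferInstance, Measure.infinitePi P, inferInstance,
    fun s ω => (ω s : ℕ), fun s => ?_, ?_, fun s ω => ?_, fun s i hi => ?_⟩
  · exact (measurable_of_countable (fun x : Fin (v s + 1) => (x : ℕ))).comp
      (measurable_pi_apply s)
  · exact iIndepFun_infinitePi (P := P) (X := fun s (x : Fin (v s + 1)) => (x : ℕ))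
      (fun s => measurable_of_countable _)
  · exact Nat.lt_succ_iff.1 (ω s).isLt
  · have h1 : {ω : (s : ℕ) → Fin (v s + 1) | (ω s : ℕ) = i} =
        (fun ω => ω s) ⁻¹' {(⟨i, by omega⟩ : Fin (v s + 1))} := by
      ext ω
      simp only [Set.mem_ofPred_eq, Set.mem_preimage, Set.mem_singleton_iff, Fin.ext_iff]
    have h2 : Measure.infinitePi P {ω : (s : ℕ) → Fin (v s + 1) | (ω s : ℕ) = i} =
        P s {(⟨i, by omega⟩ : Fin (v s + 1))} := by
      rw [h1, ← Measure.map_apply (measurable_pi_apply s) (MeasurableSet.singleton _),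
        Measure.infinitePi_map_eval]
    have h3 : P s {(⟨i, by omega⟩ : Fin (v s + 1))} = ((v s + 1 : ℕ) : ENNReal)⁻¹ := by
      rw [hP]
      simp only
      rw [PMF.toMeasure_apply_singleton _ _ (MeasurableSet.singleton _),
        PMF.uniformOfFintype_apply, Fintype.card_fin]
    rw [Measure.real, h2, h3, ENNReal.toReal_inv, ENNReal.toReal_natCast]
    push_cast
    rw [one_div]

/-- a slowly growing minorant of `h` -/
def slow (h : ℕ → ℕ) (n : ℕ) : ℕ :=
  if h0 : n < 2 then 0 else min (h n) (slow h (n / 2) + 1)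
termination_by n
decreasing_by omega

variable {h : ℕ → ℕ}

theorem slow_zero {n : ℕ} (hn : n < 2) : slow h n = 0 := by
  rw [slow, dif_pos hn]

theorem slow_eq {n : ℕ} (hn : 2 ≤ n) : slow h n = min (h n) (slow h (n / 2) + 1) := by
  rw [slow, dif_neg (by omega)]

theorem slow_le (n : ℕ) : slow h n ≤ h n := by
  rcases lt_or_ge n 2 with hn | hn
  · rw [slow_zero hn]
    exact Nat.zero_le _
  · rw [slow_eq hn]
    exact min_le_left _ _

theorem slow_step (n : ℕ) : slow h n ≤ slow h (n / 2) + 1 := by
  rcases lt_or_ge n 2 with hn | hn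
  · rw [slow_zero hn]
    exact Nat.zero_le _
  · rw [slow_eq hn]
    exact min_le_right _ _

theorem slow_half (n : ℕ) : slow h n ≤ n / 2 := by
  induction n using Nat.strong_induction_on with
  | _ n ih =>
    rcases lt_or_ge n 2 with hn | hn
    · rw [slow_zero hn]
      exact Nat.zero_le _
    · have h1 := slow_step (h := h) n
      rcases lt_or_ge (n / 2) 2 with h2 | h2
      · rw [slow_zero h2] at h1
        omega
      · have h3 := ih (n / 2) (by omega)
        omega

theorem slow_mono (hm : Monotone h) : Monotone (slow h) := by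
  have key : ∀ m : ℕ, ∀ n ≤ m, slow h n ≤ slow h m := by
    intro m
    induction m using Nat.strong_induction_on with
    | _ m ih =>
      intro n hn
      rcases lt_or_ge n 2 with h1 | h1
      · rw [slow_zero h1]
        exact Nat.zero_le _
      · rw [slow_eq h1, slow_eq (h1.trans hn)]
        have h2 := ih (m / 2) (by omega) (n / 2) (by omega)
        exact min_le_min (hm hn) (by omega)
  exact fun n m hnm => key m n hnm

theorem slow_tendsto (hh : Tendsto h atTop atTop) : Tendsto (slow h) atTop atTop := by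
  rw [tendsto_atTop]
  intro M
  induction M with
  | zero => exact Eventually.of_forall fun _ => Nat.zero_le _
  | succ M ih =>
    obtain ⟨n0, hn0⟩ := eventually_atTop.1 ih
    filter_upwards [hh.eventually_ge_atTop (M + 1), eventually_ge_atTop (2 * n0 + 2)] with n h1 h2
    rw [slow_eq (by omega)]
    have h3 := hn0 (n / 2) (by omega)
    exact le_min h1 (by omega)

theorem dens_tendsto {S : Set ℕ} (hS : BanachZero S) (hm : Monotone h)
    (hh : Tendsto h atTop atTop) {Ω : Type} [MeasurableSpace Ω] {μ : Measure Ω}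
    [IsProbabilityMeasure μ] {ε : ℕ → Ω → ℕ} (hle : ∀ s ω, ε s ω ≤ slow h s)
    (hu : ∀ s i, i ≤ slow h s → μ.real {ω | ε s ω = i} = 1 / ((slow h s : ℝ) + 1)) :
    Tendsto (dens μ ε S) atTop (nhds 0) := by
  classical
  rw [Metric.tendsto_atTop]
  intro η hη
  have h1 := (tendsto_add_atTop_nat 1).comp (slow_tendsto hh)
  have h2 := h1.eventually (hS (η / 4) (by positivity))
  obtain ⟨n0, hn0⟩ := eventually_atTop.1 (h2.and ((slow_tendsto hh).eventually_ge_atTop 1))
  refine ⟨n0, fun n hn => ?_⟩
  obtain ⟨h3, h4⟩ := hn0 n hn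
  have h5 := h3 (n - slow h n)
  simp only [Function.comp_apply] at h5
  have hhalf := slow_half (h := h) n
  have hsl : (1 : ℝ) ≤ slow h n := by exact_mod_cast h4
  have hle2 : dens μ ε S n ≤
      ((S ∩ Set.Ico (n - slow h n) (n - slow h n + (slow h n + 1))).ncard : ℝ) * (1 / slow h n) := by
    unfold dens
    have hsub : ((range (n + 1)).filter (fun s => s ∈ S ∧ n - slow h n ≤ s) : Finset ℕ).card ≤
        (S ∩ Set.Ico (n - slow h n) (n - slow h n + (slow h n + 1))).ncard := by
      rw [← Set.ncard_coe_finset]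
      refine Set.ncard_le_ncard ?_ ((Set.finite_Ico _ _).subset Set.inter_subset_right)
      intro s hs
      simp only [coe_filter, mem_range, Set.mem_ofPred_eq] at hs
      refine ⟨hs.2.1, ?_⟩
      rw [Set.mem_Ico]
      omega
    have hsum : ∑ s ∈ (range (n + 1)).filter (fun s => s ∈ S), μ.real {ω | ε s ω = n - s} =
        ∑ s ∈ (range (n + 1)).filter (fun s => s ∈ S ∧ n - slow h n ≤ s),
          μ.real {ω | ε s ω = n - s} := by
      refine (Finset.sum_subset ?_ ?_).symm
      · intro s hs
        rw [mem_filter] at hs ⊢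
        exact ⟨hs.1, hs.2.1⟩
      · intro s hs hs2
        rw [mem_filter] at hs hs2
        rw [mem_range] at hs
        have h6 : ¬ (n - slow h n ≤ s) := fun h7 => hs2 ⟨by rw [mem_range]; exact hs.1, hs.2, h7⟩
        have h7 : {ω | ε s ω = n - s} = ∅ := by
          rw [Set.eq_empty_iff_forall_notMem]
          intro ω hω
          have h8 := hle s ω
          have h9 := slow_mono hm (show s ≤ n by omega)
          rw [Set.mem_ofPred_eq] at hω
          omega
        rw [h7, measureReal_empty]
    rw [hsum]
    refine (Finset.sum_le_card_nsmul _ _ (1 / (slow h n : ℝ)) fun s hs => ?_).trans ?_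
    · rw [mem_filter, mem_range] at hs
      obtain ⟨h6, h7, h8⟩ := hs
      have h9 : n / 2 ≤ s := by omega
      have h10 := slow_mono hm h9
      have h11 := slow_step (h := h) n
      have h12 : (slow h n : ℝ) ≤ (slow h s : ℝ) + 1 := by
        have : slow h n ≤ slow h s + 1 := by omega
        exact_mod_cast this
      rcases le_or_gt (n - s) (slow h s) with h13 | h13
      · rw [hu s _ h13]
        exact one_div_le_one_div_of_le (by linarith) h12
      · have h14 : {ω | ε s ω = n - s} = ∅ := by
          rw [Set.eq_empty_iff_forall_notMem]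
          intro ω hω
          have h15 := hle s ω
          rw [Set.mem_ofPred_eq] at hω
          omega
        rw [h14, measureReal_empty]
        positivity
    · rw [nsmul_eq_mul]
      refine mul_le_mul_of_nonneg_right ?_ (by positivity)
      exact_mod_cast hsub
  have hpos : 0 ≤ dens μ ε S n := Finset.sum_nonneg fun _ _ => measureReal_nonneg
  rw [Real.dist_eq, sub_zero, abs_of_nonneg hpos]
  refine lt_of_le_of_lt hle2 ?_
  calc ((S ∩ Set.Ico (n - slow h n) (n - slow h n + (slow h n + 1))).ncard : ℝ) * (1 / slow h n)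
      ≤ (η / 4 * ((slow h n + 1 : ℕ) : ℝ)) * (1 / slow h n) :=
        mul_le_mul_of_nonneg_right h5 (by positivity)
    _ ≤ (η / 4 * (2 * slow h n)) * (1 / slow h n) := by
        refine mul_le_mul_of_nonneg_right ?_ (by positivity)
        push_cast
        exact mul_le_mul_of_nonneg_left (by linarith) (by positivity)
    _ = η / 2 := by
        field_simp
        norm_num
    _ < η := by linarith

/-- **Small perturbations.** Every set of upper Banach density zero has arbitrarily small
perturbations inside which some `g → ∞` forces unbounded representations. -/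
theorem exists_perturbation {S : Set ℕ} (hS : BanachZero S) (hm : Monotone h)
    (hh : Tendsto h atTop atTop) :
    ∃ (e : ℕ → ℕ) (g : ℕ → ℝ), (∀ s, e s ≤ h s) ∧ Tendsto g atTop atTop ∧
      ∀ B : Set ℕ, B ⊆ shift e S → ∀ c : ℝ, 0 < c →
        (∃ᶠ N : ℕ in atTop, c * Real.sqrt N ≤ g N * count B N) → ∀ k, ∃ n, k ≤ rep B n := by
  obtain ⟨Ω, _, μ, _, ε, h1, h2, h3, h4⟩ := exists_uniform (slow h)
  have h5 := dens_tendsto hS hm hh h3 h4
  obtain ⟨g, hg, hg2⟩ := subsets_exists h5
  have h6 := hg2 Ω μ ε S h1 h2 (Eventually.of_forall fun _ => le_rfl)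
  obtain ⟨ω, hω⟩ := h6.exists
  exact ⟨fun s => ε s ω, g, fun s => (h3 s ω).trans (slow_le s), hg, hω⟩

end Pool.Agent.E8helper84.SM
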