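import Pool.Agent.E8helper84.SM.SM8

/-!
# Random permutations of blocks
-/

set_option autoImplicit false

namespace Pool.Agent.E8helper84.SM

open Finset MeasureTheory ProbabilityTheory Filter

/-! ## Counting permutations -/

section perms

variable {X : Type} [Fintype X] [DecidableEq X]

/-- the permutations which map `T` into `S` -/
def NP (S T : Finset X) : Finset (Equiv.Perm X) := univ.filter (fun τ => ∀ x ∈ T, τ x ∈ S)

theorem mem_NP {S T : Finset X} {τ : Equiv.Perm X} : τ ∈ NP S T ↔ ∀ x ∈ T, τ x ∈ S := by
  simp [NP]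

theorem np_swap (S T : Finset X) {x y : X} (hx : x ∉ T) (hy : y ∉ T) :
    (NP S (insert y T)).card ≤ (NP S (insert x T)).card := by
  refine card_le_card_of_injOn (fun τ => (Equiv.swap x y).trans τ) ?_ ?_
  · intro τ hτ
    rw [mem_coe, mem_NP] at hτ ⊢
    intro z hz
    rw [Equiv.trans_apply]
    rcases mem_insert.1 hz with rfl | hz
    · rw [Equiv.swap_apply_left]
      exact hτ _ (mem_insert_self _ _)
    · have hzx : z ≠ x := fun h => hx (by rw [← h]; exact hz)
      have hzy : z ≠ y := fun h => hy (by rw [← h]; exact hz)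
      rw [Equiv.swap_apply_of_ne_of_ne hzx hzy]
      exact hτ _ (mem_insert_of_mem hz)
  · intro τ _ σ _ h
    have h1 : ∀ z, τ z = σ z := fun z => by
      have h2 := congrArg (fun ρ : Equiv.Perm X => ρ (Equiv.swap x y z)) h
      simpa using h2
    exact Equiv.ext h1

theorem np_count (S T : Finset X) :
    ∑ y ∈ univ \ T, (NP S (insert y T)).card = (NP S T).card * (S.card - T.card) := by
  have h1 : ∀ y, NP S (insert y T) = (NP S T).filter (fun τ => τ y ∈ S) := by
    intro y
    ext τ
    rw [mem_filter, mem_NP, mem_NP]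
    constructor
    · intro h
      exact ⟨fun x hx => h x (mem_insert_of_mem hx), h y (mem_insert_self _ _)⟩
    · rintro ⟨h2, h3⟩ x hx
      rcases mem_insert.1 hx with rfl | hx
      · exact h3
      · exact h2 x hx
  have h2 : ∀ τ ∈ NP S T, ((univ \ T).filter (fun y => τ y ∈ S)).card = S.card - T.card := by
    intro τ hτ
    rw [mem_NP] at hτ
    have h3 : (univ \ T).filter (fun y => τ y ∈ S) = (S.image τ.symm) \ T := by
      ext y
      rw [Finset.mem_filter, Finset.mem_sdiff, Finset.mem_sdiff, Finset.mem_image]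
      constructor
      · rintro ⟨⟨-, h4⟩, h5⟩
        exact ⟨⟨τ y, h5, by simp⟩, h4⟩
      · rintro ⟨⟨z, hz, rfl⟩, h5⟩
        exact ⟨⟨Finset.mem_univ _, h5⟩, by simpa using hz⟩
    have h4 : T ⊆ S.image τ.symm := by
      intro y hy
      rw [mem_image]
      exact ⟨τ y, hτ y hy, by simp⟩
    rw [h3, card_sdiff_of_subset h4, card_image_of_injective _ τ.symm.injective]
  calc ∑ y ∈ univ \ T, (NP S (insert y T)).card
      = ∑ y ∈ univ \ T, ∑ τ ∈ NP S T, (if τ y ∈ S then 1 else 0) := by
        refine sum_congr rfl fun y _ => ?_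
        rw [h1 y, card_filter]
    _ = ∑ τ ∈ NP S T, ∑ y ∈ univ \ T, (if τ y ∈ S then 1 else 0) := sum_comm
    _ = ∑ τ ∈ NP S T, (S.card - T.card) := by
        refine sum_congr rfl fun τ hτ => ?_
        rw [← h2 τ hτ, card_filter]
    _ = _ := by rw [sum_const, smul_eq_mul]

theorem np_step (S T : Finset X) {x : X} (hx : x ∉ T) :
    (NP S (insert x T)).card * Fintype.card X ≤ (NP S T).card * S.card := by
  set N' := (NP S (insert x T)).card with hN'
  set N := (NP S T).card with hN
  have h1 : (Fintype.card X - T.card) * N' ≤ N * (S.card - T.card) := by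
    rw [← np_count S T]
    have h2 : ((univ : Finset X) \ T).card = Fintype.card X - T.card := by
      rw [card_sdiff_of_subset (subset_univ _), card_univ]
    rw [← h2, ← smul_eq_mul, ← sum_const]
    refine sum_le_sum fun y hy => ?_
    exact np_swap S T (mem_sdiff.1 hy).2 hx
  have h3 : T.card < Fintype.card X := by
    rw [← card_univ]
    exact card_lt_card ((ssubset_univ_iff).2 fun h => hx (h ▸ mem_univ x))
  have h4 : S.card ≤ Fintype.card X := card_le_univ S
  rcases le_or_gt T.card S.card with h5 | h5
  · obtain ⟨u, hu⟩ := Nat.exists_eq_add_of_le h5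
    obtain ⟨w, hw⟩ := Nat.exists_eq_add_of_lt h3
    rw [hu] at h1 h4 ⊢
    rw [hw] at h1 h4 ⊢
    have e1 : T.card + w + 1 - T.card = w + 1 := by omega
    have e2 : T.card + u - T.card = u := by omega
    rw [e1, e2] at h1
    have h6 : u ≤ w + 1 := by omega
    -- `(w+1) N' ≤ N u`, want `N' (t + w + 1) ≤ N (t + u)`
    have h7 : N' ≤ N := by
      by_contra hcon
      push Not at hcon
      have h8 : (w + 1) * (N + 1) ≤ (w + 1) * N' := Nat.mul_le_mul_left _ hcon
      have h9 : N * u ≤ N * (w + 1) := Nat.mul_le_mul_left _ h6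
      have h10 : (w + 1) * (N + 1) = N * (w + 1) + (w + 1) := by ring
      omega
    calc N' * (T.card + w + 1) = N' * T.card + (w + 1) * N' := by ring
      _ ≤ N * T.card + N * u := Nat.add_le_add (Nat.mul_le_mul_right _ h7) h1
      _ = N * (T.card + u) := by ring
  · have e1 : S.card - T.card = 0 := by omega
    rw [e1, mul_zero] at h1
    have h6 : N' = 0 := by
      by_contra hcon
      have : 0 < (Fintype.card X - T.card) * N' := Nat.mul_pos (by omega) (by omega)
      omega
    rw [h6, zero_mul]
    exact Nat.zero_le _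

theorem np_card (S T : Finset X) :
    (NP S T).card * Fintype.card X ^ T.card ≤ Fintype.card (Equiv.Perm X) * S.card ^ T.card := by
  induction T using Finset.induction_on with
  | empty =>
    rw [card_empty, pow_zero, pow_zero, mul_one, mul_one]
    exact card_le_univ _
  | insert x T hx ih =>
    rw [card_insert_of_notMem hx, pow_succ, pow_succ]
    calc (NP S (insert x T)).card * (Fintype.card X ^ T.card * Fintype.card X)
        = (NP S (insert x T)).card * Fintype.card X * Fintype.card X ^ T.card := by ring
      _ ≤ (NP S T).card * S.card * Fintype.card X ^ T.card :=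
          Nat.mul_le_mul_right _ (np_step S T hx)
      _ = (NP S T).card * Fintype.card X ^ T.card * S.card := by ring
      _ ≤ Fintype.card (Equiv.Perm X) * S.card ^ T.card * S.card := Nat.mul_le_mul_right _ ih
      _ = _ := by ring

/-- the probability that a uniformly distributed random permutation maps `T` into `S` -/
theorem perm_prob [MeasurableSpace (Equiv.Perm X)] (hX : 0 < Fintype.card X) (S T : Finset X)
    (hms : MeasurableSet {τ : Equiv.Perm X | ∀ x ∈ T, τ x ∈ S}) :
    ((PMF.uniformOfFintype (Equiv.Perm X)).toMeasure {τ : Equiv.Perm X | ∀ x ∈ T, τ x ∈ S}).toReal ≤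
      ((S.card : ℝ) / Fintype.card X) ^ T.card := by
  rw [PMF.toMeasure_uniformOfFintype_apply _ hms, ENNReal.toReal_div, ENNReal.toReal_natCast,
    ENNReal.toReal_natCast, div_pow]
  have h1 : Fintype.card {τ : Equiv.Perm X | ∀ x ∈ T, τ x ∈ S} = (NP S T).card := by
    rw [Fintype.card_subtype]
    rfl
  rw [h1]
  have h2 : (0 : ℝ) < Fintype.card X := by exact_mod_cast hX
  have h3 : (0 : ℝ) < Fintype.card (Equiv.Perm X) := by exact_mod_cast Fintype.card_pos
  rw [div_le_div_iff₀ h3 (by positivity)]
  have h4 := np_card S T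
  have h5 : ((NP S T).card : ℝ) * (Fintype.card X : ℝ) ^ T.card ≤
      (Fintype.card (Equiv.Perm X) : ℝ) * (S.card : ℝ) ^ T.card := by exact_mod_cast h4
  linarith

end perms

end Pool.Agent.E8helper84.SM
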